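import Pool.Agent.LibKS44.A2

/-!
# LibST95.A0 : polynomials in Hecke data
-/

set_option autoImplicit false

namespace ST95

open KS44

variable {Γ R : Type} [Group Γ] [Ring R] {j : Γ →* R}

/-- the zero datum -/
def hZero (j : Γ →* R) : HD j where
  I := Empty
  fin := inferInstance
  a i := i.elim
  c i _ := i.elim
  s _ i := i
  rel i := i.elim
  c_mul i := i.elim
  s_bij _ := Function.bijective_id

/-- the identity -/
def hOne (j : Γ →* R) : HD j where
  I := Unit
  fin := inferInstance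
  a _ := 1
  c _ γ := γ
  s _ i := i
  rel _ γ := by rw [one_mul, mul_one]
  c_mul _ _ _ := rfl
  s_bij _ := Function.bijective_id

/-- the sum -/
def hAdd (A B : HD j) : HD j where
  I := A.I ⊕ B.I
  fin := inferInstance
  a := Sum.elim A.a B.a
  c := Sum.elim A.c B.c
  s γ := Sum.map (A.s γ) (B.s γ)
  rel i γ := by
    cases i with
    | inl x => exact A.rel x γ
    | inr y => exact B.rel y γ
  c_mul i γ δ := by
    cases i with
    | inl x => exact A.c_mul x γ δ
    | inr y => exact B.c_mul y γ δ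
  s_bij γ := Sum.map_bijective.mpr ⟨A.s_bij γ, B.s_bij γ⟩

/-- the composition -/
def hComp (A B : HD j) : HD j where
  I := A.I × B.I
  fin := inferInstance
  a i := A.a i.1 * B.a i.2
  c i γ := B.c i.2 (A.c i.1 γ)
  s γ i := (A.s γ i.1, B.s (A.c i.1 γ) i.2)
  rel i γ := by
    rw [mul_assoc, B.rel, ← mul_assoc, A.rel, mul_assoc]
  c_mul i γ δ := by rw [A.c_mul, B.c_mul]
  s_bij γ := by
    constructor
    · rintro ⟨i, k⟩ ⟨i', k'⟩ h
      have h1 : A.s γ i = A.s γ i' := congrArg Prod.fst h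
      obtain rfl := (A.s_bij γ).1 h1
      have h2 : B.s (A.c i γ) k = B.s (A.c i γ) k' := congrArg Prod.snd h
      rw [(B.s_bij _).1 h2]
    · rintro ⟨i, k⟩
      obtain ⟨i', rfl⟩ := (A.s_bij γ).2 i
      obtain ⟨k', rfl⟩ := (B.s_bij (A.c i' γ)).2 k
      exact ⟨(i', k'), rfl⟩

/-- integral multiple -/
def hSmul (n : ℤ) (A : HD j) : HD j where
  I := A.I
  fin := A.fin
  a i := n • A.a i
  c := A.c
  s := A.s
  rel i γ := by rw [smul_mul_assoc, A.rel, mul_smul_comm]
  c_mul := A.c_mul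
  s_bij := A.s_bij

/-- powers -/
def hPow (A : HD j) : ℕ → HD j
  | 0 => hOne j
  | n + 1 => hComp A (hPow A n)

/-- `F = T² - n S` -/
def hF (T S : HD j) (n : ℤ) : HD j := hAdd (hComp T T) (hSmul (-n) S)

/-- `G = T ^ d + c` -/
def hG (T : HD j) (d : ℕ) (c : ℤ) : HD j := hAdd (hPow T d) (hSmul c (hOne j))

/-- `Q = F ^ N + (1 - F ^ N) G` -/
def hQ (T S : HD j) (n : ℤ) (N d : ℕ) (c : ℤ) : HD j :=
  hAdd (hPow (hF T S n) N) (hComp (hAdd (hOne j) (hSmul (-1) (hPow (hF T S n) N))) (hG T d c))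

section

variable {M N : Type} [AddCommGroup M] [Module R M] [AddCommGroup N] [Module R N]

theorem hZero_op (u : Γ → M) : (hZero j).op u = 0 := by
  funext γ
  change ∑ i : Empty, _ = (0 : M)
  exact Fintype.sum_empty _

theorem hOne_op (u : Γ → M) : (hOne j).op u = u := by
  funext γ
  change ∑ _i : Unit, (1 : R) • u γ = u γ
  rw [Fintype.sum_unique, one_smul]

theorem hAdd_op (A B : HD j) (u : Γ → M) : (hAdd A B).op u = fun γ => A.op u γ + B.op u γ := by
  funext γ
  change ∑ i : A.I ⊕ B.I, Sum.elim A.a B.a i • u (Sum.elim A.c B.c i γ) = _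
  rw [Fintype.sum_sum_type]
  rfl

theorem hComp_op (A B : HD j) (u : Γ → M) : (hComp A B).op u = A.op (B.op u) := by
  funext γ
  change ∑ i : A.I × B.I, (A.a i.1 * B.a i.2) • u (B.c i.2 (A.c i.1 γ)) =
    ∑ i, A.a i • ∑ k, B.a k • u (B.c k (A.c i γ))
  rw [Fintype.sum_prod_type]
  refine Finset.sum_congr rfl fun i _ => ?_
  rw [Finset.smul_sum]
  exact Finset.sum_congr rfl fun k _ => mul_smul _ _ _

theorem hSmul_op (n : ℤ) (A : HD j) (u : Γ → M) : (hSmul n A).op u = fun γ => n • A.op u γ := by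
  funext γ
  change ∑ i, (n • A.a i) • u (A.c i γ) = n • ∑ i, A.a i • u (A.c i γ)
  rw [Finset.smul_sum]
  refine Finset.sum_congr rfl fun i _ => ?_
  rw [smul_assoc]

theorem hF_op (T S : HD j) (n : ℤ) (u : Γ → M) : (hF T S n).op u = dsc T S n u := by
  unfold hF
  rw [hAdd_op]
  funext γ
  rw [hComp_op, hSmul_op]
  change T.op (T.op u) γ + (-n) • S.op u γ = T.op (T.op u) γ - n • S.op u γ
  rw [neg_smul, sub_eq_add_neg]

variable (M)

/-- `P` is injective on `H¹(Γ, M)` -/
def InjP (P : HD j) : Prop := ∀ u : Γ → M, Coc j M u → Cob j M (P.op u) → Cob j M u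

variable {M}

theorem injP_iff (P : HD j) : InjP M P ↔ Inj M (hZero j) P (-1) := by
  have h : ∀ u : Γ → M, dsc (hZero j) P (-1) u = P.op u := by
    intro u
    funext γ
    change (hZero j).op ((hZero j).op u) γ - (-1 : ℤ) • P.op u γ = P.op u γ
    rw [hZero_op]
    change (0 : M) - (-1 : ℤ) • P.op u γ = P.op u γ
    rw [neg_smul, one_smul, zero_sub, neg_neg]
  constructor
  · intro hP u hu hd
    rw [h] at hd
    exact hP u hu hd
  · intro hP u hu hd
    refine hP u hu ?_
    rw [h]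
    exact hd

theorem devissageP [Finite M] (P : HD j) (N : Submodule R M) (hN : InjP N P)
    (hQ : InjP (M ⧸ N) P) : InjP M P :=
  (injP_iff P).mpr (devissage (hZero j) P (-1) N ((injP_iff P).mp hN) ((injP_iff P).mp hQ))

end

end ST95
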