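import Mathlib

/-!
# LibST95.A1 : the algebra modulo `ℓ`
-/

set_option autoImplicit false

namespace ST95

theorem core_unit {C : Type} [CommRing C] {ℓ : ℕ} (hl : ℓ.Prime) (hl2 : ℓ ≠ 2) (h0 : (ℓ : C) = 0)
    (E τ : C) (hE : E ^ (ℓ - 1) = 1) (hτ : τ ^ (ℓ - 1) = 1) (d : ℕ) (hEd : E ^ d = 1)
    (a b : ℤ) (ha : (ℓ : ℤ) ∣ a ^ d - 1) (T F : C) (hT : T = E * (a + b * τ))
    (hF : F = T ^ 2 - 4 * (a * b) * (E ^ 2 * τ)) :
    ∃ w : C, w * (F ^ (ℓ - 1) + (1 - F ^ (ℓ - 1)) * (T ^ d + 2 ^ d)) = 1 := by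
  rcases subsingleton_or_nontrivial C with hC | hC
  · exact ⟨0, Subsingleton.elim _ _⟩
  have : Fact ℓ.Prime := ⟨hl⟩
  have : CharP C ℓ := (CharP.charP_iff_prime_eq_zero hl).2 h0
  have hpos : 1 ≤ ℓ - 1 := by have := hl.two_le; omega
  have hl1 : ℓ = (ℓ - 1) + 1 := by have := hl.two_le; omega
  -- `r = E (a - b τ)`
  obtain ⟨r, hr⟩ : ∃ r : C, r = E * (a - b * τ) := ⟨_, rfl⟩
  have hFr : F = r ^ 2 := by rw [hF, hT, hr]; ring
  have hcast : ∀ n : ℤ, (n : C) ^ ℓ = n := fun n => by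
    have := map_intCast (frobenius C ℓ) n
    rwa [frobenius_def] at this
  have hEl : E ^ ℓ = E := by
    conv_lhs => rw [hl1]
    rw [pow_succ, hE, one_mul]
  have hτl : τ ^ ℓ = τ := by
    conv_lhs => rw [hl1]
    rw [pow_succ, hτ, one_mul]
  have hrl : r ^ ℓ = r := by
    rw [hr, mul_pow, sub_pow_char, mul_pow, hcast, hcast, hEl, hτl]
  obtain ⟨e, he⟩ : ∃ e : C, e = F ^ (ℓ - 1) := ⟨_, rfl⟩
  have her : e = r ^ (ℓ - 1) := by
    have h2 : 2 * (ℓ - 1) = ℓ + (ℓ - 2) := by have := hl.two_le; omega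
    have h3 : ℓ - 1 = 1 + (ℓ - 2) := by have := hl.two_le; omega
    rw [he, hFr, ← pow_mul, h2, pow_add, hrl]
    conv_rhs => rw [h3, pow_add, pow_one]
  have hre : r * (1 - e) = 0 := by
    rw [mul_sub, mul_one, her, ← pow_succ', ← hl1, hrl, sub_self]
  have hee : e * e = e := by
    have h1 : e * (1 - e) = 0 := by
      have h2 : r ^ (ℓ - 1) = r ^ (ℓ - 2) * r := by
        rw [← pow_succ]
        congr 1
        have := hl.two_le
        omega
      calc e * (1 - e) = r ^ (ℓ - 1) * (1 - e) := by rw [← her]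
        _ = r ^ (ℓ - 2) * (r * (1 - e)) := by rw [h2, mul_assoc]
        _ = 0 := by rw [hre, mul_zero]
    linear_combination -h1
  -- `(1 - e) T = (1 - e) 2 a E`
  have hTe : (1 - e) * T = (1 - e) * (2 * a * E) := by
    have h1 : T = 2 * a * E - r := by rw [hT, hr]; ring
    rw [h1]
    linear_combination -hre
  have hTk : ∀ k : ℕ, (1 - e) * T ^ k = (1 - e) * (2 * a * E) ^ k := by
    intro k
    induction k with
    | zero => simp
    | succ k ih =>
      calc (1 - e) * T ^ (k + 1) = ((1 - e) * T ^ k) * T := by ring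
        _ = ((1 - e) * T) * (2 * a * E) ^ k := by rw [ih]; ring
        _ = (1 - e) * (2 * a * E) ^ (k + 1) := by rw [hTe]; ring
  have had : ((a : ℤ) : C) ^ d = 1 := by
    obtain ⟨k, hk⟩ := ha
    have h1 : ((a ^ d - 1 : ℤ) : C) = 0 := by
      rw [hk]
      push_cast
      rw [h0, zero_mul]
    push_cast at h1
    linear_combination h1
  have hTd : (1 - e) * T ^ d = (1 - e) * 2 ^ d := by
    rw [hTk, mul_pow, mul_pow, had, hEd, mul_one, mul_one]
  -- inverse of `2 ^ (d + 1)`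
  obtain ⟨v, hv⟩ : ∃ v : C, v * 2 ^ (d + 1) = 1 := by
    have hcop : Nat.Coprime (2 ^ (d + 1)) ℓ := by
      apply Nat.Coprime.pow_left
      exact (Nat.coprime_primes Nat.prime_two hl).mpr (Ne.symm hl2)
    have h1 : IsCoprime ((2 ^ (d + 1) : ℕ) : ℤ) (ℓ : ℤ) := Nat.isCoprime_iff_coprime.mpr hcop
    obtain ⟨x, y, hxy⟩ := h1
    refine ⟨(x : C), ?_⟩
    have h2 : ((x * ((2 ^ (d + 1) : ℕ) : ℤ) + y * (ℓ : ℤ) : ℤ) : C) = 1 := by
      rw [hxy, Int.cast_one]
    push_cast at h2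
    rw [h0, mul_zero, add_zero] at h2
    exact h2
  refine ⟨e + (1 - e) * v, ?_⟩
  rw [← he]
  have h3 : (1 - e) * (T ^ d + 2 ^ d) = (1 - e) * 2 ^ (d + 1) := by
    rw [mul_add, hTd]
    ring
  rw [h3]
  have h4 : (e + (1 - e) * v) * (e + (1 - e) * 2 ^ (d + 1)) =
      e * e + (e - e * e) * 2 ^ (d + 1) + (e - e * e) * v + (1 - 2 * e + e * e) * (v * 2 ^ (d + 1)) := by
    ring
  rw [h4, hv, hee]
  ring

theorem core_op {W : Type} [AddCommGroup W] {ℓ : ℕ} (hl : ℓ.Prime) (hl2 : ℓ ≠ 2)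
    (hW : ∀ v : W, ℓ • v = 0) (E τ : Module.End ℤ W) (hc : Commute E τ) (hE : E ^ (ℓ - 1) = 1)
    (hτ : τ ^ (ℓ - 1) = 1) (d : ℕ) (hEd : E ^ d = 1) (a b : ℤ) (ha : (ℓ : ℤ) ∣ a ^ d - 1)
    (T S F : Module.End ℤ W) (hT : T = E * (a • (1 : Module.End ℤ W) + b • τ)) (hS : S = E * E * τ)
    (hF : F = T * T - (4 * (a * b)) • S) (y : W)
    (hy : (F ^ (ℓ - 1) + (1 - F ^ (ℓ - 1)) * (T ^ d + (2 ^ d : ℤ) • (1 : Module.End ℤ W))) y = 0) :
    y = 0 := by
  letI : CommRing (Algebra.adjoin ℤ ({E, τ} : Set (Module.End ℤ W))) :=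
    Algebra.adjoinCommRingOfComm ℤ (by
      intro x hx y hy
      rcases hx with rfl | hx
      · rcases hy with rfl | hy
        · rfl
        · rw [Set.mem_singleton_iff.mp hy]
          exact hc
      · rw [Set.mem_singleton_iff.mp hx]
        rcases hy with rfl | hy
        · exact hc.symm
        · rw [Set.mem_singleton_iff.mp hy])
  let ι : Algebra.adjoin ℤ ({E, τ} : Set (Module.End ℤ W)) →+* Module.End ℤ W :=
    (Algebra.adjoin ℤ ({E, τ} : Set (Module.End ℤ W))).val.toRingHom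
  let E' : Algebra.adjoin ℤ ({E, τ} : Set (Module.End ℤ W)) :=
    ⟨E, Algebra.subset_adjoin (Set.mem_insert _ _)⟩
  let τ' : Algebra.adjoin ℤ ({E, τ} : Set (Module.End ℤ W)) :=
    ⟨τ, Algebra.subset_adjoin (Set.mem_insert_of_mem _ rfl)⟩
  have hι : Function.Injective ι := Subtype.val_injective
  have hιE : ι E' = E := rfl
  have hιτ : ι τ' = τ := rfl
  have h0 : ((ℓ : ℕ) : Algebra.adjoin ℤ ({E, τ} : Set (Module.End ℤ W))) = 0 := by
    apply hι
    rw [map_natCast, map_zero]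
    ext v
    rw [Module.End.natCast_apply]
    simpa using hW v
  obtain ⟨w, hw⟩ := core_unit (C := Algebra.adjoin ℤ ({E, τ} : Set (Module.End ℤ W))) hl hl2 h0 E' τ'
    (hι (by rw [map_pow, hιE, hE, map_one])) (hι (by rw [map_pow, hιτ, hτ, map_one])) d
    (hι (by rw [map_pow, hιE, hEd, map_one])) a b ha _ _ rfl rfl
  have h1 := congrArg ι hw
  rw [map_one, map_mul, map_add, map_mul, map_sub, map_add, map_one] at h1
  simp only [map_pow] at h1
  have hT' : ι (E' * ((a : Algebra.adjoin ℤ ({E, τ} : Set (Module.End ℤ W))) + (b : Algebra.adjoin ℤ ({E, τ} : Set (Module.End ℤ W))) * τ')) = T := by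
    rw [hT, map_mul, map_add, map_mul, map_intCast, map_intCast, hιE, hιτ]
    rw [zsmul_one, zsmul_eq_mul]
  have hF' : ι ((E' * ((a : Algebra.adjoin ℤ ({E, τ} : Set (Module.End ℤ W))) + (b : Algebra.adjoin ℤ ({E, τ} : Set (Module.End ℤ W))) * τ')) ^ 2
      - 4 * ((a : Algebra.adjoin ℤ ({E, τ} : Set (Module.End ℤ W))) * (b : Algebra.adjoin ℤ ({E, τ} : Set (Module.End ℤ W)))) * (E' ^ 2 * τ')) = F := by
    rw [map_sub, map_pow, hT', hF, hS, map_mul, map_mul, map_mul, map_mul, map_pow, map_intCast,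
      map_intCast, hιE, hιτ, pow_two, pow_two, map_ofNat, zsmul_eq_mul]
    push_cast
    simp only [mul_assoc]
  rw [hT', hF'] at h1
  have e2 : ι 2 ^ d = (2 ^ d : ℤ) • (1 : Module.End ℤ W) := by
    rw [map_ofNat, zsmul_eq_mul, mul_one]
    push_cast
    rfl
  rw [e2] at h1
  have h2 := LinearMap.congr_fun h1 y
  rw [Module.End.mul_apply, hy, map_zero] at h2
  exact h2.symm

end ST95
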