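import Pool.Agent.LibST95.A0
import Pool.Agent.LibST95.A1
import Pool.Agent.LibKS44.B1
import Pool.Agent.LibKS44.D4

/-!
# LibST95.A2 : modules on which the determinant acts
-/

set_option autoImplicit false

open Matrix
open scoped MatrixGroups

namespace ST95

open KS44

theorem same_class {ℓ : ℕ} {σ σ' : SL(2, ℤ)} (hσ : σ ∈ G0 ℓ) (hσ' : σ' ∈ G0 ℓ)
    (h : (ℓ : ℤ) ∣ (σ' : Mat) 0 0 - (σ : Mat) 0 0) : σ' * σ⁻¹ ∈ G1 ℓ := by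
  obtain ⟨a, ha⟩ := (show (ℓ : ℤ) ∣ (σ : Mat) 1 0 from hσ)
  obtain ⟨b, hb⟩ := (show (ℓ : ℤ) ∣ (σ' : Mat) 1 0 from hσ')
  obtain ⟨c, hc⟩ := h
  have hd : (σ : Mat) 0 0 * (σ : Mat) 1 1 - (σ : Mat) 0 1 * (σ : Mat) 1 0 = 1 := by
    have := Matrix.SpecialLinearGroup.det_coe σ
    rwa [Matrix.det_fin_two] at this
  have e : ((σ' * σ⁻¹ : SL(2, ℤ)) : Mat) = (σ' : Mat) * (σ : Mat).adjugate := by
    rw [Matrix.SpecialLinearGroup.coe_mul, Matrix.SpecialLinearGroup.coe_inv]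
  have e00 : ((σ' * σ⁻¹ : SL(2, ℤ)) : Mat) 0 0 = (σ' : Mat) 0 0 * (σ : Mat) 1 1 - (σ' : Mat) 0 1 * (σ : Mat) 1 0 := by
    rw [e, Matrix.adjugate_fin_two, Matrix.mul_apply, Fin.sum_univ_two]
    simp
    ring
  have e10 : ((σ' * σ⁻¹ : SL(2, ℤ)) : Mat) 1 0 = (σ' : Mat) 1 0 * (σ : Mat) 1 1 - (σ' : Mat) 1 1 * (σ : Mat) 1 0 := by
    rw [e, Matrix.adjugate_fin_two, Matrix.mul_apply, Fin.sum_univ_two]
    simp
    ring
  refine ⟨?_, ?_⟩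
  · rw [e00]
    refine ⟨c * (σ : Mat) 1 1 + (σ : Mat) 0 1 * a - (σ' : Mat) 0 1 * a, ?_⟩
    rw [ha] at hd ⊢
    linear_combination (σ : Mat) 1 1 * hc + hd
  · rw [e10, ha, hb]
    exact ⟨b * (σ : Mat) 1 1 - (σ' : Mat) 1 1 * a, by ring⟩

theorem class_eq {ℓ : ℕ} {V : Type} [AddCommGroup V] {f : SL(2, ℤ) → V} (hf : HomOn ℓ f)
    {x σ σ' : SL(2, ℤ)} (hx : x ∈ G1 ℓ) (hσ : σ ∈ G0 ℓ) (hσ' : σ' ∈ G0 ℓ)
    (h : (ℓ : ℤ) ∣ (σ' : Mat) 0 0 - (σ : Mat) 0 0) :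
    f (σ' * x * σ'⁻¹) = f (σ * x * σ⁻¹) := by
  have h1 : σ' * x * σ'⁻¹ = (σ' * σ⁻¹) * (σ * x * σ⁻¹) * (σ' * σ⁻¹)⁻¹ := by group
  rw [h1, hf.conj (conj_mem hσ hx) (same_class hσ hσ' h)]

open Classical in
/-- extension by zero -/
noncomputable def ext {ℓ : ℕ} {V : Type} [AddCommGroup V] (u : G1 ℓ → V) (γ : SL(2, ℤ)) : V :=
  if hγ : γ ∈ G1 ℓ then u ⟨γ, hγ⟩ else 0

theorem ext_of {ℓ : ℕ} {V : Type} [AddCommGroup V] (u : G1 ℓ → V) {γ : SL(2, ℤ)} (hγ : γ ∈ G1 ℓ) :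
    ext u γ = u ⟨γ, hγ⟩ := dif_pos hγ

theorem ext_hom {ℓ : ℕ} {V : Type} [AddCommGroup V] [Module (R1 ℓ) V] (hV : DetMod ℓ V) {u : G1 ℓ → V}
    (hu : Coc (jj ℓ) V u) : HomOn ℓ (ext u) := by
  intro γ hγ δ hδ
  rw [ext_of u hγ, ext_of u hδ, ext_of u (mul_mem hγ hδ)]
  have h := hu ⟨γ, hγ⟩ ⟨δ, hδ⟩
  rw [d3_jj hV] at h
  exact h

/-- a lift of `t` -/
theorem exists_lift {ℓ : ℕ} (hl : ℓ.Prime) (t : (ZMod ℓ)ˣ) :
    ∃ σ : SL(2, ℤ), σ ∈ G0 ℓ ∧ (((σ : Mat) 0 0 : ℤ) : ZMod ℓ) = t := by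
  have : Fact ℓ.Prime := ⟨hl⟩
  obtain ⟨a, ha⟩ := ZMod.intCast_surjective (t : ZMod ℓ)
  have ha0 : ¬ (ℓ : ℤ) ∣ a := by
    intro h
    have h1 := (ZMod.intCast_zmod_eq_zero_iff_dvd a ℓ).mpr h
    rw [ha] at h1
    exact t.ne_zero h1
  obtain ⟨σ, h1, h2⟩ := lift_col ℓ hl a 0 (fun h => ha0 h.1)
  rw [sub_zero] at h2
  refine ⟨σ, h2, ?_⟩
  rw [← ha]
  exact ((ZMod.intCast_eq_intCast_iff_dvd_sub _ _ _).2 h1).symm

/-- the chosen lift -/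
noncomputable def lft {ℓ : ℕ} (hl : ℓ.Prime) (t : (ZMod ℓ)ˣ) : SL(2, ℤ) := (exists_lift hl t).choose

theorem lft_mem {ℓ : ℕ} (hl : ℓ.Prime) (t : (ZMod ℓ)ˣ) : lft hl t ∈ G0 ℓ :=
  (exists_lift hl t).choose_spec.1

theorem lft_val {ℓ : ℕ} (hl : ℓ.Prime) (t : (ZMod ℓ)ˣ) :
    ((((lft hl t : SL(2, ℤ)) : Mat) 0 0 : ℤ) : ZMod ℓ) = t := (exists_lift hl t).choose_spec.2

/-- `t ↦ u (σ_t x σ_t⁻¹)` -/
noncomputable def Phi {ℓ : ℕ} (hl : ℓ.Prime) {V : Type} [AddCommGroup V] (x : SL(2, ℤ)) (u : G1 ℓ → V) :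
    (ZMod ℓ)ˣ → V := fun t => ext u (lft hl t * x * (lft hl t)⁻¹)

theorem Phi_eq {ℓ : ℕ} (hl : ℓ.Prime) {V : Type} [AddCommGroup V] [Module (R1 ℓ) V] (hV : DetMod ℓ V)
    {x : SL(2, ℤ)} (hx : x ∈ G1 ℓ) {u : G1 ℓ → V} (hu : Coc (jj ℓ) V u) {σ : SL(2, ℤ)} (hσ : σ ∈ G0 ℓ)
    (t : (ZMod ℓ)ˣ) (ht : (((σ : Mat) 0 0 : ℤ) : ZMod ℓ) = t) : ext u (σ * x * σ⁻¹) = Phi hl x u t := by
  refine class_eq (ext_hom hV hu) hx (lft_mem hl t) hσ ?_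
  apply (ZMod.intCast_eq_intCast_iff_dvd_sub _ _ _).1
  rw [lft_val, ht]

/-- the class of `p` -/
noncomputable def pu {ℓ p : ℕ} {τ : SL(2, ℤ)} (h : Setup ℓ p τ) : (ZMod ℓ)ˣ :=
  ZMod.unitOfCoprime p (Nat.isCoprime_iff_coprime.mp h.cop)

/-- `E`, `τ` on the functions on `(ℤ/ℓ)ˣ` -/
noncomputable def Eop {ℓ : ℕ} (V : Type) [AddCommGroup V] [Module (R1 ℓ) V] (g : D1 ℓ) :
    Module.End ℤ ((ZMod ℓ)ˣ → V) where
  toFun y t := el ℓ g • y t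
  map_add' y z := by funext t; exact smul_add _ _ _
  map_smul' n y := by funext t; exact smul_comm (el ℓ g) n (y t)

/-- translation -/
def Top {ℓ : ℕ} (V : Type) [AddCommGroup V] (q : (ZMod ℓ)ˣ) : Module.End ℤ ((ZMod ℓ)ˣ → V) where
  toFun y t := y (t * q)
  map_add' _ _ := rfl
  map_smul' _ _ := rfl

theorem Eop_pow {ℓ : ℕ} (V : Type) [AddCommGroup V] [Module (R1 ℓ) V] (g : D1 ℓ) (n : ℕ)
    (y : (ZMod ℓ)ˣ → V) (t : (ZMod ℓ)ˣ) : (Eop V g ^ n) y t = el ℓ (g ^ n) • y t := by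
  induction n generalizing y with
  | zero => rw [pow_zero, pow_zero, map_one, one_smul]; rfl
  | succ n ih =>
    rw [pow_succ, Module.End.mul_apply, ih, pow_succ, map_mul, mul_smul]
    rfl

theorem Top_pow {ℓ : ℕ} (V : Type) [AddCommGroup V] (q : (ZMod ℓ)ˣ) (n : ℕ)
    (y : (ZMod ℓ)ˣ → V) (t : (ZMod ℓ)ˣ) : (Top V q ^ n) y t = y (t * q ^ n) := by
  induction n generalizing y with
  | zero => rw [pow_zero, pow_zero, mul_one]; rfl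
  | succ n ih =>
    rw [pow_succ, Module.End.mul_apply, ih, pow_succ, ← mul_assoc]
    rfl

/-- `diag(1, p)` -/
def gE {ℓ p : ℕ} {τ : SL(2, ℤ)} (h : Setup ℓ p τ) : D1 ℓ :=
  ⟨!![1, 0; 0, (p : ℤ)], by
    refine ⟨?_, ?_, ?_⟩
    · rw [Matrix.det_fin_two_of]
      simpa using h.cop
    · simp
    · simp⟩

theorem gE_pow {ℓ p : ℕ} {τ : SL(2, ℤ)} (h : Setup ℓ p τ) (n : ℕ) :
    (gE h ^ n : D1 ℓ).1 1 1 = (p : ℤ) ^ n := by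
  have h1 : ∀ n : ℕ, ((gE h ^ n : D1 ℓ) : Mat) = !![1, 0; 0, (p : ℤ) ^ n] := by
    intro n
    induction n with
    | zero =>
      rw [pow_zero]
      ext i k
      fin_cases i <;> fin_cases k <;> simp
    | succ n ih =>
      rw [pow_succ, Submonoid.coe_mul, ih]
      change !![1, 0; 0, (p : ℤ) ^ n] * !![1, 0; 0, (p : ℤ)] = _
      rw [Matrix.mul_fin_two]
      simp [pow_succ]
  rw [h1]
  rfl

theorem gE_smul_pow {ℓ p : ℕ} {τ : SL(2, ℤ)} (h : Setup ℓ p τ) {V : Type} [AddCommGroup V]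
    [Module (R1 ℓ) V] (hV : DetMod ℓ V) (n : ℕ) (hn : (ℓ : ℤ) ∣ (p : ℤ) ^ n - 1) (v : V) :
    el ℓ (gE h ^ n) • v = v := by
  have h1 := hV (gE h ^ n) 1 (by
    rw [gE_pow]
    change (ℓ : ℤ) ∣ (p : ℤ) ^ n - (1 : Mat) 1 1
    rwa [Matrix.one_apply_eq]) v
  rw [h1, map_one, one_smul]

theorem T1_ext {ℓ p : ℕ} {τ : SL(2, ℤ)} (h : Setup ℓ p τ) {V : Type} [AddCommGroup V]
    [Module (R1 ℓ) V] (hV : DetMod ℓ V) (u : G1 ℓ → V) {γ : SL(2, ℤ)} (hγ : γ ∈ G1 ℓ) :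
    ext ((T1 h).op u) γ = el ℓ (gE h) • hk τ p (ext u) γ := by
  rw [ext_of _ hγ]
  change ∑ i : Option (Fin p), el ℓ ⟨(alpha τ p i).adjugate, adj_mem h i⟩ •
        u ⟨comp (alpha τ p) i γ, comp_mem_G1 h i hγ⟩ = _
  unfold hk
  rw [Finset.smul_sum]
  refine Finset.sum_congr rfl fun i _ => ?_
  rw [ext_of _ (comp_mem_G1 h i hγ)]
  apply hV
  change (ℓ : ℤ) ∣ (alpha τ p i).adjugate 1 1 - (!![1, 0; 0, (p : ℤ)] : Mat) 1 1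
  rw [(d3_adj _).2.2.2]
  exact (alpha_cong h i).1

theorem S1_ext {ℓ p : ℕ} {τ : SL(2, ℤ)} (h : Setup ℓ p τ) {V : Type} [AddCommGroup V]
    [Module (R1 ℓ) V] (hV : DetMod ℓ V) (u : G1 ℓ → V) {γ : SL(2, ℤ)} (hγ : γ ∈ G1 ℓ) :
    ext ((S1 h).op u) γ = el ℓ (gE h) • el ℓ (gE h) • ext u (τ * γ * τ⁻¹) := by
  rw [ext_of _ hγ, ext_of _ (conj_mem (tau_mem h) hγ)]
  change ∑ _i : Unit, el ℓ ⟨_, z_mem h⟩ • u ⟨τ * γ * τ⁻¹, conj_mem (tau_mem h) hγ⟩ = _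
  rw [Fintype.sum_unique, ← mul_smul, ← map_mul]
  apply hV
  change (ℓ : ℤ) ∣ ((p : ℤ) • ((τ⁻¹ : SL(2, ℤ)) : Mat)) 1 1 - ((gE h * gE h : D1 ℓ) : Mat) 1 1
  have h1 := gE_pow h 2
  rw [pow_two] at h1
  rw [h1, Matrix.smul_apply, smul_eq_mul, Matrix.SpecialLinearGroup.coe_inv, (d3_adj _).2.2.2]
  obtain ⟨t, ht⟩ := h.h00
  exact ⟨p * t, by linear_combination (p : ℤ) * ht⟩

/-- `Φ (P u) = P' (Φ u)` -/
def Cmp {ℓ : ℕ} (hl : ℓ.Prime) (V : Type) [AddCommGroup V] [Module (R1 ℓ) V] (x : SL(2, ℤ))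
    (P : HD (jj ℓ)) (P' : Module.End ℤ ((ZMod ℓ)ˣ → V)) : Prop :=
  ∀ u : G1 ℓ → V, Coc (jj ℓ) V u → Phi hl x (P.op u) = P' (Phi hl x u)

theorem mul00 {ℓ : ℕ} {σ τ : SL(2, ℤ)} (hτ : τ ∈ G0 ℓ) :
    ((((σ * τ : SL(2, ℤ)) : Mat) 0 0 : ℤ) : ZMod ℓ) = (((σ : Mat) 0 0 : ℤ) : ZMod ℓ) * (((τ : Mat) 0 0 : ℤ) : ZMod ℓ) := by
  obtain ⟨b, hb⟩ := (show (ℓ : ℤ) ∣ (τ : Mat) 1 0 from hτ)
  rw [Matrix.SpecialLinearGroup.coe_mul, Matrix.mul_apply, Fin.sum_univ_two, hb]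
  push_cast
  rw [ZMod.natCast_self]
  ring

theorem tau00 {ℓ p : ℕ} {τ : SL(2, ℤ)} (h : Setup ℓ p τ) : (((τ : Mat) 0 0 : ℤ) : ZMod ℓ) = pu h := by
  have h1 := ((ZMod.intCast_eq_intCast_iff_dvd_sub _ _ _).2 h.h00).symm
  rw [h1]
  unfold pu
  rw [ZMod.coe_unitOfCoprime, Int.cast_natCast]

section

variable {ℓ p : ℕ} {τ : SL(2, ℤ)} (h : Setup ℓ p τ) {V : Type} [AddCommGroup V] [Module (R1 ℓ) V]

theorem cmp_T (hV : DetMod ℓ V) {x : SL(2, ℤ)} (hx : x ∈ G1 ℓ) (a b : ℕ)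
    (hval : ∀ f : SL(2, ℤ) → V, HomOn ℓ f → hk τ p f x = a • f x + b • f (τ * x * τ⁻¹)) :
    Cmp h.hl V x (T1 h) (Eop V (gE h) * ((a : ℤ) • (1 : Module.End ℤ ((ZMod ℓ)ˣ → V)) + (b : ℤ) • Top V (pu h))) := by
  intro u hu
  funext t
  have hσ := lft_mem h.hl t
  have e1 : Phi h.hl x ((T1 h).op u) t =
      el ℓ (gE h) • hk τ p (ext u) (lft h.hl t * x * (lft h.hl t)⁻¹) := T1_ext h hV u (conj_mem hσ hx)
  have e2 : ext u ((lft h.hl t * τ) * x * (lft h.hl t * τ)⁻¹) = Phi h.hl x u (t * pu h) := by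
    refine Phi_eq h.hl hV hx hu (mul_mem hσ (tau_mem h)) _ ?_
    rw [mul00 (tau_mem h), lft_val, tau00 h, Units.val_mul]
  rw [e1, c5_step1 h hx a b hval (ext_hom hV hu) hσ, e2]
  change _ = el ℓ (gE h) • ((a : ℤ) • Phi h.hl x u t + (b : ℤ) • Phi h.hl x u (t * pu h))
  rw [natCast_zsmul, natCast_zsmul]
  rfl

theorem cmp_S (hV : DetMod ℓ V) {x : SL(2, ℤ)} (hx : x ∈ G1 ℓ) :
    Cmp h.hl V x (S1 h) (Eop V (gE h) * Eop V (gE h) * Top V (pu h)) := by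
  intro u hu
  funext t
  have hσ := lft_mem h.hl t
  have e1 : Phi h.hl x ((S1 h).op u) t =
      el ℓ (gE h) • el ℓ (gE h) • ext u (τ * (lft h.hl t * x * (lft h.hl t)⁻¹) * τ⁻¹) :=
    S1_ext h hV u (conj_mem hσ hx)
  have e2 : ext u (τ * (lft h.hl t * x * (lft h.hl t)⁻¹) * τ⁻¹) = Phi h.hl x u (t * pu h) := by
    have e3 : τ * (lft h.hl t * x * (lft h.hl t)⁻¹) * τ⁻¹ =
        (τ * lft h.hl t) * x * (τ * lft h.hl t)⁻¹ := by group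
    rw [e3]
    refine Phi_eq h.hl hV hx hu (mul_mem (tau_mem h) hσ) _ ?_
    rw [mul00 hσ, lft_val, tau00 h, Units.val_mul, mul_comm]
  rw [e1, e2]
  rfl

end

section

variable {ℓ : ℕ} {hl : ℓ.Prime} {V : Type} [AddCommGroup V] [Module (R1 ℓ) V] {x : SL(2, ℤ)}
  {P Q : HD (jj ℓ)} {P' Q' : Module.End ℤ ((ZMod ℓ)ˣ → V)}

theorem cmp_one : Cmp hl V x (hOne (jj ℓ)) 1 := by
  intro u _
  rw [hOne_op]
  rfl

theorem ext_add (u v : G1 ℓ → V) (γ : SL(2, ℤ)) : ext (fun g => u g + v g) γ = ext u γ + ext v γ := by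
  unfold ext
  split_ifs
  · rfl
  · rw [add_zero]

theorem ext_zsmul (n : ℤ) (u : G1 ℓ → V) (γ : SL(2, ℤ)) : ext (fun g => n • u g) γ = n • ext u γ := by
  unfold ext
  split_ifs
  · rfl
  · rw [smul_zero]

theorem cmp_add (hP : Cmp hl V x P P') (hQ : Cmp hl V x Q Q') : Cmp hl V x (hAdd P Q) (P' + Q') := by
  intro u hu
  rw [hAdd_op, LinearMap.add_apply, ← hP u hu, ← hQ u hu]
  funext t
  exact ext_add _ _ _

theorem cmp_smul (n : ℤ) (hP : Cmp hl V x P P') : Cmp hl V x (hSmul n P) (n • P') := by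
  intro u hu
  rw [hSmul_op, LinearMap.smul_apply, ← hP u hu]
  funext t
  exact ext_zsmul _ _ _

theorem cmp_comp (hP : Cmp hl V x P P') (hQ : Cmp hl V x Q Q') : Cmp hl V x (hComp P Q) (P' * Q') := by
  intro u hu
  rw [hComp_op, hP _ (op_coc Q u hu), hQ u hu]
  rfl

theorem cmp_pow (hP : Cmp hl V x P P') (n : ℕ) : Cmp hl V x (hPow P n) (P' ^ n) := by
  induction n with
  | zero => exact cmp_one
  | succ n ih =>
    rw [pow_succ']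
    exact cmp_comp hP ih

end

theorem baseP {ℓ p : ℕ} {τ : SL(2, ℤ)} (h : Setup ℓ p τ) (hl : ℓ = 3 ∨ ℓ = 5 ∨ ℓ = 7) (d : ℕ)
    (hd : (ℓ : ℤ) ∣ (p : ℤ) ^ d - 1) (V : Type) [AddCommGroup V] [Module (R1 ℓ) V] (hV : DetMod ℓ V) :
    InjP V (hQ (T1 h) (S1 h) (4 * p) (ℓ - 1) d (2 ^ d)) := by
  intro u hu hcob
  have : Fact ℓ.Prime := ⟨h.hl⟩
  have hl2 : ℓ ≠ 2 := by rcases hl with h | h | h <;> omega
  have hℓV : ∀ v : V, ℓ • v = 0 := by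
    intro v
    have h1 : ((ℓ : ℕ) : R1 ℓ) = 0 := by
      rw [← map_natCast (algebraMap (ZMod ℓ) (R1 ℓ)) ℓ, CharP.cast_eq_zero, map_zero]
    rw [← Nat.cast_smul_eq_nsmul (R1 ℓ), h1, zero_smul]
  have hW : ∀ y : (ZMod ℓ)ˣ → V, ℓ • y = 0 := fun y => funext fun t => hℓV _
  have hQ0 : ∀ γ : G1 ℓ, (hQ (T1 h) (S1 h) (4 * p) (ℓ - 1) d (2 ^ d)).op u γ = 0 := by
    intro γ
    obtain ⟨m, hm⟩ := hcob
    rw [hm γ, d3_jj hV, sub_self]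
  have hfer : (ℓ : ℤ) ∣ (p : ℤ) ^ (ℓ - 1) - 1 := by
    have h1 := congrArg (fun t : (ZMod ℓ)ˣ => (t : ZMod ℓ)) (ZMod.units_pow_card_sub_one_eq_one ℓ (pu h))
    simp only [Units.val_pow_eq_pow_val, Units.val_one] at h1
    rw [← tau00 h] at h1
    have h2 := ((ZMod.intCast_eq_intCast_iff_dvd_sub _ _ _).2 h.h00).symm
    rw [h2] at h1
    apply (ZMod.intCast_zmod_eq_zero_iff_dvd _ ℓ).mp
    push_cast
    push_cast at h1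
    rw [h1, sub_self]
  have main : ∀ (x : SL(2, ℤ)) (hx : x ∈ G1 ℓ) (a b : ℕ), a * b = p → ((ℓ : ℤ) ∣ (a : ℤ) ^ d - 1) →
      (∀ f : SL(2, ℤ) → V, HomOn ℓ f → hk τ p f x = a • f x + b • f (τ * x * τ⁻¹)) →
      Phi h.hl x u = 0 := by
    intro x hx a b hab had hval
    have hT := cmp_T h hV hx a b hval
    have hS := cmp_S h hV hx
    have hF : Cmp h.hl V x (hF (T1 h) (S1 h) (4 * p)) _ := cmp_add (cmp_comp hT hT) (cmp_smul (-(4 * p)) hS)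
    have hG := cmp_add (cmp_pow hT d) (cmp_smul (2 ^ d) (cmp_one (hl := h.hl) (V := V) (x := x)))
    have hQ := cmp_add (cmp_pow hF (ℓ - 1)) (cmp_comp (cmp_add (cmp_one (hl := h.hl) (V := V) (x := x))
      (cmp_smul (-1) (cmp_pow hF (ℓ - 1)))) hG)
    have h1 := hQ u hu
    have h2 : Phi h.hl x ((ST95.hQ (T1 h) (S1 h) (4 * p) (ℓ - 1) d (2 ^ d)).op u) = 0 := by
      funext t
      change ext _ _ = _
      rw [ext_of _ (conj_mem (lft_mem h.hl t) hx)]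
      exact hQ0 _
    have h3 := h1.symm.trans h2
    refine core_op h.hl hl2 hW (Eop V (gE h)) (Top V (pu h)) ?_ ?_ ?_ d ?_ a b had _ _ _ rfl rfl rfl _ ?_
    · refine LinearMap.ext fun y => ?_
      rfl
    · refine LinearMap.ext fun y => ?_
      funext t
      rw [Eop_pow, gE_smul_pow h hV _ hfer]
      rfl
    · refine LinearMap.ext fun y => ?_
      funext t
      rw [Top_pow, ZMod.units_pow_card_sub_one_eq_one, mul_one]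
      rfl
    · refine LinearMap.ext fun y => ?_
      funext t
      rw [Eop_pow, gE_smul_pow h hV _ hd]
      rfl
    · have e4 : (4 * ((a : ℤ) * (b : ℤ))) = 4 * (p : ℤ) := by
        rw [← hab]
        push_cast
        ring
      rw [e4, sub_eq_add_neg, ← neg_smul]
      rw [neg_smul (1 : ℤ), one_smul ℤ, ← sub_eq_add_neg (1 : Module.End ℤ ((ZMod ℓ)ˣ → V))] at h3
      exact h3
  have hTV : Phi h.hl ModularGroup.T u = 0 :=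
    main _ T_mem p 1 (mul_one p) hd (fun f hf => by rw [hk_T h hf, one_smul])
  have hVV : Phi h.hl (lowV ℓ) u = 0 :=
    main _ lowV_mem 1 p (one_mul p) (by simp) (fun f hf => by rw [hk_V h hℓV hf, one_smul])
  have hz := gen hl (ext_hom hV hu) (fun σ hσ => by
    have hne : (((σ : Mat) 0 0 : ℤ) : ZMod ℓ) ≠ 0 := by
      intro h0
      have h1 := (ZMod.intCast_zmod_eq_zero_iff_dvd _ ℓ).mp h0
      have hd : (σ : Mat) 0 0 * (σ : Mat) 1 1 - (σ : Mat) 0 1 * (σ : Mat) 1 0 = 1 := by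
        have := Matrix.SpecialLinearGroup.det_coe σ
        rwa [Matrix.det_fin_two] at this
      have h2 : (ℓ : ℤ) ∣ 1 := by
        rw [← hd]
        exact dvd_sub (h1.mul_right _) ((show (ℓ : ℤ) ∣ (σ : Mat) 1 0 from hσ).mul_left _)
      have h3 : ℓ ∣ 1 := by exact_mod_cast h2
      exact h.hl.one_lt.ne' (Nat.dvd_one.mp h3)
    refine ⟨?_, ?_⟩
    · rw [Phi_eq h.hl hV T_mem hu hσ (Units.mk0 _ hne) rfl, hTV]
      rfl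
    · rw [Phi_eq h.hl hV lowV_mem hu hσ (Units.mk0 _ hne) rfl, hVV]
      rfl)
  refine ⟨0, fun γ => ?_⟩
  rw [smul_zero, sub_zero]
  have := hz γ γ.2
  rw [ext_of _ γ.2] at this
  exact this

end ST95
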