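import Pool.Agent.LibST95.A2
import Pool.Agent.LibKS44.F3

/-!
# LibST95.A3 : injectivity modulo `ℓ`
-/

set_option autoImplicit false

open Matrix
open scoped MatrixGroups

namespace ST95

open KS44

theorem allP {ℓ p : ℕ} {τ : SL(2, ℤ)} (h : Setup ℓ p τ) (hl : ℓ = 3 ∨ ℓ = 5 ∨ ℓ = 7) (d : ℕ)
    (hd : (ℓ : ℤ) ∣ (p : ℤ) ^ d - 1) (r : ℕ) (M : Type) [AddCommGroup M] [Module (R1 ℓ) M] [Finite M]
    (hC : CongMod ℓ r M) : InjP M (hQ (T1 h) (S1 h) (4 * p) (ℓ - 1) d (2 ^ d)) := by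
  have key : ∀ n : ℕ, ∀ (M : Type) [AddCommGroup M] [Module (R1 ℓ) M] [Finite M], Nat.card M = n →
      CongMod ℓ r M → InjP M (hQ (T1 h) (S1 h) (4 * p) (ℓ - 1) d (2 ^ d)) := by
    intro n
    induction n using Nat.strong_induction_on with
    | _ n ih =>
      intro M _ _ _ hn hC
      rcases subsingleton_or_nontrivial M with hM | hM
      · intro u _ _
        exact ⟨0, fun g => Subsingleton.elim _ _⟩
      · obtain ⟨V, hV0, hVD⟩ := fix h.hl r M hC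
        refine devissageP _ V (baseP h hl d hd V hVD) ?_
        have : Finite (M ⧸ V) := Finite.of_surjective _ (Submodule.mkQ_surjective V)
        refine ih _ (by rw [← hn]; exact d4_card M V hV0) (M ⧸ V) rfl ?_
        intro g k hgk x
        obtain ⟨y, rfl⟩ := Submodule.mkQ_surjective V x
        rw [← map_smul, ← map_smul, hC g k hgk y]
  exact key _ M rfl hC

variable {ι : Type} [Fintype ι] [DecidableEq ι] {ℓ : ℕ} {ρ : Mat → Matrix ι ι ℤ}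

/-- `P (rs u) - rs (Q u)` is a coboundary for every cocycle `u` -/
def Rel (hρ : IsRep ℓ ρ) (P : HD (jj ℓ)) (Q : HD (jG hρ (ZMod ℓ))) : Prop :=
  ∀ u : SL(2, ℤ) → ι → ZMod ℓ, Coc (jG hρ (ZMod ℓ)) (ι → ZMod ℓ) u →
    Cob (jj ℓ) (rep hρ).asModule (fun γ => P.op (rs hρ u) γ - rs hρ (Q.op u) γ)

variable {hρ : IsRep ℓ ρ} {P P' : HD (jj ℓ)} {Q Q' : HD (jG hρ (ZMod ℓ))}

theorem rel_one : Rel hρ (hOne (jj ℓ)) (hOne _) := by
  intro u _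
  refine ⟨0, fun γ => ?_⟩
  dsimp only
  rw [hOne_op, hOne_op, sub_self, smul_zero, sub_zero]

theorem rel_add (h1 : Rel hρ P Q) (h2 : Rel hρ P' Q') : Rel hρ (hAdd P P') (hAdd Q Q') := by
  intro u hu
  obtain ⟨m, hm⟩ := h1 u hu
  obtain ⟨m', hm'⟩ := h2 u hu
  refine ⟨m + m', fun γ => ?_⟩
  have e : rs hρ ((hAdd Q Q').op u) γ = rs hρ (Q.op u) γ + rs hρ (Q'.op u) γ := by
    rw [hAdd_op]
    exact map_add _ _ _
  have a := hm γ
  have b := hm' γ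
  dsimp only at a b ⊢
  rw [e, hAdd_op, smul_add]
  have e2 : P.op (rs hρ u) γ + P'.op (rs hρ u) γ - (rs hρ (Q.op u) γ + rs hρ (Q'.op u) γ) =
      (P.op (rs hρ u) γ - rs hρ (Q.op u) γ) + (P'.op (rs hρ u) γ - rs hρ (Q'.op u) γ) := by abel
  rw [e2, a, b]
  abel

theorem rel_smul (n : ℤ) (h1 : Rel hρ P Q) : Rel hρ (hSmul n P) (hSmul n Q) := by
  intro u hu
  obtain ⟨m, hm⟩ := h1 u hu
  refine ⟨n • m, fun γ => ?_⟩
  have e : rs hρ ((hSmul n Q).op u) γ = n • rs hρ (Q.op u) γ := by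
    rw [hSmul_op]
    exact map_zsmul (rep hρ).asModuleEquiv.symm _ _
  have a := hm γ
  dsimp only at a ⊢
  rw [e, hSmul_op]
  have b := congrArg (fun x => n • x) a
  rw [zsmul_sub, zsmul_sub, smul_comm n (jj ℓ γ) m] at b
  exact b

theorem rel_comp (h1 : Rel hρ P Q) (h2 : Rel hρ P' Q') : Rel hρ (hComp P P') (hComp Q Q') := by
  intro u hu
  obtain ⟨m', hm'⟩ := h2 u hu
  obtain ⟨m, hm⟩ := h1 (Q'.op u) (op_coc Q' u hu)
  refine ⟨m + P.act0 m', fun γ => ?_⟩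
  have e1 : P'.op (rs hρ u) = fun γ => rs hρ (Q'.op u) γ - -(jj ℓ γ • m' - m') := by
    funext γ
    have a := hm' γ
    dsimp only at a
    rw [← a]
    abel
  have e2 : (fun γ => -(jj ℓ γ • m' - m') : G1 ℓ → (rep hρ).asModule) =
      fun γ => jj ℓ γ • (-m') - (-m') := by
    funext γ
    rw [smul_neg]
    abel
  have e3 : P.op (P'.op (rs hρ u)) γ = P.op (rs hρ (Q'.op u)) γ - (jj ℓ γ • P.act0 (-m') - P.act0 (-m')) := by
    rw [e1, op_sub P (rs hρ (Q'.op u)) (fun γ => -(jj ℓ γ • m' - m')), e2, op_cob]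
  have e4 : P.act0 (-m') = - P.act0 m' := by
    simp only [HD.act0, smul_neg, Finset.sum_neg_distrib]
  have a := hm γ
  dsimp only at a ⊢
  rw [hComp_op, hComp_op, e3, e4, smul_neg, smul_add]
  have e5 : P.op (rs hρ (Q'.op u)) γ = (jj ℓ γ • m - m) + rs hρ (Q.op (Q'.op u)) γ := by
    rw [← a]
    abel
  rw [e5]
  abel

theorem rel_pow (h1 : Rel hρ P Q) (n : ℕ) : Rel hρ (hPow P n) (hPow Q n) := by
  induction n with
  | zero => exact rel_one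
  | succ n ih => exact rel_comp h1 ih

theorem rel_T {p : ℕ} {τ : SL(2, ℤ)} (h : Setup ℓ p τ) (hρ : IsRep ℓ ρ) :
    Rel hρ (T1 h) (TG hρ h.cop (alpha_reps τ p h.hp) (ZMod ℓ)) := by
  intro u _
  refine ⟨0, fun γ => ?_⟩
  dsimp only
  rw [f1_T h hρ, sub_self, smul_zero, sub_zero]

theorem rel_S {p : ℕ} {τ : SL(2, ℤ)} (h : Setup ℓ p τ) (hρ : IsRep ℓ ρ) :
    Rel hρ (S1 h) (SG hρ h.cop (ZMod ℓ)) := by
  intro u hu
  refine ⟨(rep hρ).asModuleEquiv.symm (act ρ (ZMod ℓ) ((p : ℤ) • 1) (u τ⁻¹)), fun γ => ?_⟩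
  dsimp only
  rw [f1_S h hρ u hu γ, f1_jj, map_add, ← map_sub]
  change _ + _ - (rep hρ).asModuleEquiv.symm _ = _
  abel

theorem rel_Q {p : ℕ} {τ : SL(2, ℤ)} (h : Setup ℓ p τ) (hρ : IsRep ℓ ρ) (n : ℤ) (N d : ℕ) (c : ℤ) :
    Rel hρ (hQ (T1 h) (S1 h) n N d c)
      (hQ (TG hρ h.cop (alpha_reps τ p h.hp) (ZMod ℓ)) (SG hρ h.cop (ZMod ℓ)) n N d c) := by
  have hF := rel_add (rel_comp (rel_T h hρ) (rel_T h hρ)) (rel_smul (-n) (rel_S h hρ))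
  exact rel_add (rel_pow hF N) (rel_comp (rel_add rel_one (rel_smul (-1) (rel_pow hF N)))
    (rel_add (rel_pow (rel_T h hρ) d) (rel_smul c rel_one)))

/-- injectivity of `Q` modulo `ℓ` -/
theorem modP {ℓ p : ℕ} {τ : SL(2, ℤ)} (h : Setup ℓ p τ) (hl : ℓ = 3 ∨ ℓ = 5 ∨ ℓ = 7) (d : ℕ)
    (hd : (ℓ : ℤ) ∣ (p : ℤ) ^ d - 1) {ρ : Mat → Matrix ι ι ℤ} (hρ : IsRep ℓ ρ) :
    InjP (ι → ZMod ℓ) (hQ (TG hρ h.cop (alpha_reps τ p h.hp) (ZMod ℓ)) (SG hρ h.cop (ZMod ℓ)) (4 * p)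
      (ℓ - 1) d (2 ^ d)) := by
  rintro u hu ⟨m, hm⟩
  obtain ⟨r, hr⟩ := rep_cong hρ
  have hfin : Finite (rep hρ).asModule := by
    have : NeZero ℓ := ⟨h.hl.ne_zero⟩
    exact Finite.of_equiv (ι → ZMod ℓ) (rep hρ).asModuleEquiv.symm.toEquiv
  refine res_inj h.hl hρ u hu (allP h hl d hd r (rep hρ).asModule hr (rs hρ u) (rs_coc hρ u hu) ?_)
  obtain ⟨m', hm'⟩ := rel_Q h hρ (4 * p) (ℓ - 1) d (2 ^ d) u hu
  refine ⟨m' + (rep hρ).asModuleEquiv.symm m, fun γ => ?_⟩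
  have a := hm' γ
  dsimp only at a
  have b : rs hρ ((hQ (TG hρ h.cop (alpha_reps τ p h.hp) (ZMod ℓ)) (SG hρ h.cop (ZMod ℓ)) (4 * p)
      (ℓ - 1) d (2 ^ d)).op u) γ = jj ℓ γ • (rep hρ).asModuleEquiv.symm m - (rep hρ).asModuleEquiv.symm m := by
    rw [f1_jj, ← map_sub, ← hm γ]
    rfl
  rw [b] at a
  rw [smul_add]
  have c := eq_add_of_sub_eq a
  rw [c]
  abel

end ST95
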