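import Mathlib

/-!
# LibST95.B1 : from `Z / ℓ` to `Z` (pure algebra)
-/

set_option autoImplicit false

namespace ST95

theorem hensel {ℓ : ℕ} (hl : ℓ.Prime) (hl2 : ℓ ≠ 2) (c C : ℤ) (hcC : (ℓ : ℤ) ∣ C - c ^ 2)
    (hc : ¬ (ℓ : ℤ) ∣ c) (k : ℕ) : ∃ n : ℤ, (ℓ : ℤ) ∣ n - c ∧ (ℓ : ℤ) ^ (k + 1) ∣ C - n ^ 2 := by
  have hlp : Prime (ℓ : ℤ) := Nat.prime_iff_prime_int.1 hl
  induction k with
  | zero => exact ⟨c, by simp, by simpa using hcC⟩
  | succ k ih =>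
    obtain ⟨n, hn, s, hs⟩ := ih
    have h2 : ¬ (ℓ : ℤ) ∣ 2 := by
      intro h
      have h' : ℓ ∣ 2 := by exact_mod_cast h
      exact hl2 ((Nat.prime_dvd_prime_iff_eq hl Nat.prime_two).1 h')
    have hn0 : ¬ (ℓ : ℤ) ∣ n := fun h => hc (by
      have := dvd_sub h hn
      simpa using this)
    have h2n : ¬ (ℓ : ℤ) ∣ 2 * n := fun h => by
      rcases hlp.dvd_or_dvd h with h | h
      · exact h2 h
      · exact hn0 h
    have hcop : IsCoprime (2 * n) (ℓ : ℤ) := by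
      rw [Int.isCoprime_iff_gcd_eq_one]
      have h3 : IsCoprime (ℓ : ℤ) (2 * n) := (hlp.coprime_iff_not_dvd).mpr h2n
      exact Int.isCoprime_iff_gcd_eq_one.mp h3.symm
    obtain ⟨x, y, hxy⟩ := hcop
    refine ⟨n + (s * x) * (ℓ : ℤ) ^ (k + 1), ?_, ?_⟩
    · have e : n + (s * x) * (ℓ : ℤ) ^ (k + 1) - c = (n - c) + (s * x) * (ℓ : ℤ) ^ k * ℓ := by ring
      rw [e]
      exact dvd_add hn (dvd_mul_left _ _)
    · refine ⟨s * y - (s * x) ^ 2 * (ℓ : ℤ) ^ k, ?_⟩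
      have e : C = n ^ 2 + (ℓ : ℤ) ^ (k + 1) * s := by linear_combination hs
      rw [e]
      have e2 : s = s * (x * (2 * n) + y * ℓ) := by rw [hxy, mul_one]
      have e3 : n ^ 2 + (ℓ : ℤ) ^ (k + 1) * s - (n + s * x * (ℓ : ℤ) ^ (k + 1)) ^ 2 =
        (ℓ : ℤ) ^ (k + 1) * (s - 2 * n * (s * x)) - (s * x) ^ 2 * ((ℓ : ℤ) ^ (k + 1)) ^ 2 := by ring
      rw [e3]
      have e4 : s - 2 * n * (s * x) = s * y * ℓ := by linear_combination e2
      rw [e4]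
      ring

theorem alg_level2 {ℓ : ℕ} (hl : ℓ.Prime) (hl2 : ℓ ≠ 2) (Z : Type) [AddCommGroup Z] [Module.Finite ℤ Z]
    (B : AddSubgroup Z) (f G Q : Z →+ Z) (hfB : ∀ b ∈ B, f b ∈ B) (hGB : ∀ b ∈ B, G b ∈ B)
    (hQB : ∀ b ∈ B, Q b ∈ B) (hfG : ∀ z, f (G z) = G (f z)) (c C : ℤ) (hC : ¬ IsSquare C)
    (hcC : (ℓ : ℤ) ∣ C - c ^ 2) (hc : ¬ (ℓ : ℤ) ∣ c)
    (hQ : ∀ u : Z, (∃ N : ℤ, N ≠ 0 ∧ N • f u ∈ B) → ∃ N : ℤ, N ≠ 0 ∧ N • (Q u - (G u + c • u)) ∈ B)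
    (hG2 : ∀ u : Z, (∃ N : ℤ, N ≠ 0 ∧ N • f u ∈ B) → ∃ N : ℤ, N ≠ 0 ∧ N • (G (G u) - C • u) ∈ B)
    (h1 : ∀ u : Z, (∃ b ∈ B, ∃ z, Q u = b + ℓ • z) → ∃ b ∈ B, ∃ z, u = b + ℓ • z)
    (u : Z) (hu : ∃ N : ℤ, N ≠ 0 ∧ N • f u ∈ B) : ∃ N : ℤ, N ≠ 0 ∧ N • u ∈ B := by
  classical
  have hl0 : (ℓ : ℤ) ≠ 0 := by exact_mod_cast hl.ne_zero
  let W : Submodule ℤ Z :=
    { carrier := {u | ∃ N : ℤ, N ≠ 0 ∧ N • u ∈ B}
      zero_mem' := ⟨1, one_ne_zero, by rw [smul_zero]; exact B.zero_mem⟩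
      add_mem' := by
        rintro x y ⟨a, ha, hx⟩ ⟨b, hb, hy⟩
        refine ⟨a * b, mul_ne_zero ha hb, ?_⟩
        have e : (a * b) • (x + y) = b • (a • x) + a • (b • y) := by
          rw [smul_add, smul_smul, smul_smul, mul_comm b a]
        rw [e]
        exact B.add_mem (B.zsmul_mem hx b) (B.zsmul_mem hy a)
      smul_mem' := by
        rintro c x ⟨a, ha, hx⟩
        refine ⟨a, ha, ?_⟩
        rw [smul_comm]
        exact B.zsmul_mem hx c }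
  have hBW : ∀ b ∈ B, b ∈ W := fun b hb => ⟨1, one_ne_zero, by rw [one_smul]; exact hb⟩
  have hsat : ∀ (r : ℤ) (x : Z), r ≠ 0 → r • x ∈ W → x ∈ W := by
    rintro r x hr ⟨N, hN, hx⟩
    exact ⟨N * r, mul_ne_zero hN hr, by rw [mul_smul]; exact hx⟩
  have hfW : ∀ x ∈ W, f x ∈ W := by
    rintro x ⟨N, hN, hx⟩
    exact ⟨N, hN, by rw [← map_zsmul]; exact hfB _ hx⟩
  have hGW : ∀ x ∈ W, G x ∈ W := by
    rintro x ⟨N, hN, hx⟩
    exact ⟨N, hN, by rw [← map_zsmul]; exact hGB _ hx⟩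
  have hQW : ∀ x ∈ W, Q x ∈ W := by
    rintro x ⟨N, hN, hx⟩
    exact ⟨N, hN, by rw [← map_zsmul]; exact hQB _ hx⟩
  let Cm : Submodule ℤ Z :=
    { carrier := {u | ∃ b ∈ B, ∃ z, u = b + ℓ • z}
      zero_mem' := ⟨0, B.zero_mem, 0, by rw [smul_zero, add_zero]⟩
      add_mem' := by
        rintro x y ⟨b, hb, z, rfl⟩ ⟨b', hb', z', rfl⟩
        refine ⟨b + b', B.add_mem hb hb', z + z', ?_⟩
        rw [smul_add]
        abel
      smul_mem' := by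
        rintro c x ⟨b, hb, z, rfl⟩
        refine ⟨c • b, B.zsmul_mem hb c, c • z, ?_⟩
        rw [smul_add, smul_comm] }
  let Dl : Z →ₗ[ℤ] Z := Q.toIntLinearMap
  have hDl : ∀ x, Dl x = Q x := fun _ => rfl
  have hle : Cm ≤ Cm.comap Dl := by
    rintro x ⟨b, hb, z, rfl⟩
    rw [Submodule.mem_comap]
    refine ⟨Q b, hQB b hb, Q z, ?_⟩
    rw [hDl, map_add, map_nsmul]
  let D' : (Z ⧸ Cm) →ₗ[ℤ] (Z ⧸ Cm) := Cm.mapQ Cm Dl hle
  have hD' : ∀ x, D' (Cm.mkQ x) = Cm.mkQ (Q x) := fun x => rfl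
  have hinj : Function.Injective D' := by
    rw [injective_iff_map_eq_zero]
    intro y hy
    obtain ⟨x, rfl⟩ := Cm.mkQ_surjective y
    rw [hD', Submodule.mkQ_apply, Submodule.Quotient.mk_eq_zero] at hy
    rw [Submodule.mkQ_apply, Submodule.Quotient.mk_eq_zero]
    exact h1 x hy
  have hfin : Finite (Z ⧸ Cm) := by
    apply Module.finite_of_fg_torsion
    intro y
    obtain ⟨x, rfl⟩ := Cm.mkQ_surjective y
    refine ⟨⟨(ℓ : ℤ), mem_nonZeroDivisors_of_ne_zero hl0⟩, ?_⟩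
    change (ℓ : ℤ) • Cm.mkQ x = 0
    rw [← map_smul, Submodule.mkQ_apply, Submodule.Quotient.mk_eq_zero]
    exact ⟨0, B.zero_mem, x, by rw [zero_add, natCast_zsmul]⟩
  -- `Q x ∈ W + ℓ Z` implies `x ∈ W + ℓ Z`
  have step : ∀ x : Z, (∃ w ∈ W, ∃ z, Q x = w + (ℓ : ℤ) • z) → ∃ w ∈ W, ∃ z, x = w + (ℓ : ℤ) • z := by
    rintro x ⟨w, hw, z, hz⟩
    let Qm : Submodule ℤ (Z ⧸ Cm) := W.map Cm.mkQ
    have hQm : ∀ y ∈ Qm, D' y ∈ Qm := by
      rintro y ⟨w, hw, rfl⟩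
      exact ⟨Q w, hQW w hw, rfl⟩
    have hs : Function.Surjective (fun y : Qm => (⟨D' y.1, hQm y.1 y.2⟩ : Qm)) := by
      apply Finite.surjective_of_injective
      intro y y' h
      apply Subtype.ext
      exact hinj (congrArg Subtype.val h)
    obtain ⟨⟨y, w', hw', rfl⟩, h2⟩ := hs ⟨Cm.mkQ w, ⟨w, hw, rfl⟩⟩
    have h3 : D' (Cm.mkQ w') = Cm.mkQ w := congrArg Subtype.val h2
    have h4 : D' (Cm.mkQ x) = Cm.mkQ w := by
      rw [hD', hz, map_add]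
      have : Cm.mkQ ((ℓ : ℤ) • z) = 0 := by
        rw [Submodule.mkQ_apply, Submodule.Quotient.mk_eq_zero]
        exact ⟨0, B.zero_mem, z, by rw [zero_add, natCast_zsmul]⟩
      rw [this, add_zero]
    have h5 := hinj (h4.trans h3.symm)
    have h6 : x - w' ∈ Cm := (Submodule.Quotient.eq Cm).mp h5
    obtain ⟨b, hb, z', hz'⟩ := h6
    refine ⟨w' + b, W.add_mem hw' (hBW b hb), z', ?_⟩
    rw [add_assoc, natCast_zsmul, ← hz']
    abel
  -- `L`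
  have hQ' : ∀ x : Z, f x ∈ W → Q x - (G x + c • x) ∈ W := fun x hx => hQ x hx
  have hG2' : ∀ x : Z, f x ∈ W → G (G x) - C • x ∈ W := fun x hx => hG2 x hx
  have claim : ∀ (k : ℕ) (x : Z) (n : ℤ), f x ∈ W → (ℓ : ℤ) ∣ n - c →
      (∃ w ∈ W, ∃ z, G x + n • x = w + ((ℓ : ℤ) ^ k) • z) → ∃ w ∈ W, ∃ z, x = w + ((ℓ : ℤ) ^ k) • z := by
    intro k
    induction k with
    | zero =>
      intro x n _ _ _
      exact ⟨0, W.zero_mem, x, by rw [pow_zero, one_smul, zero_add]⟩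
    | succ k ih =>
      rintro x n hx ⟨t, ht⟩ ⟨w, hw, z, hz⟩
      obtain ⟨w1, hw1, y, hy⟩ := step x ⟨w + (Q x - (G x + c • x)), W.add_mem hw (hQ' x hx),
        (ℓ : ℤ) ^ k • z - t • x, by
          have e1 : n = c + ℓ * t := by linear_combination ht
          have e2 : G x = w + ((ℓ : ℤ) ^ (k + 1)) • z - n • x := by rw [← hz]; abel
          have e3 : Q x = Q x - (G x + c • x) + (G x + c • x) := by abel
          rw [smul_sub, smul_smul, smul_smul, ← pow_succ']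
          conv_lhs => rw [e3]
          have e4 : G x + c • x = w + ((ℓ : ℤ) ^ (k + 1)) • z - (ℓ * t) • x := by
            rw [e2, e1, add_smul]
            abel
          conv_lhs => rw [e4]
          conv_rhs => rw [e4]
          abel⟩
      have hfy : f y ∈ W := by
        apply hsat (ℓ : ℤ) _ hl0
        have e : (ℓ : ℤ) • f y = f x - f w1 := by
          rw [hy, map_add, map_zsmul]
          abel
        rw [e]
        exact W.sub_mem hx (hfW w1 hw1)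
      have hw3 : G y + n • y - (ℓ : ℤ) ^ k • z ∈ W := by
        apply hsat (ℓ : ℤ) _ hl0
        have e : (ℓ : ℤ) • (G y + n • y - (ℓ : ℤ) ^ k • z) = w - (G w1 + n • w1) := by
          have e5 : G x + n • x = (G w1 + n • w1) + (ℓ : ℤ) • (G y + n • y) := by
            rw [hy, map_add, map_zsmul, smul_add, smul_add, smul_comm n (ℓ : ℤ) y]
            abel
          rw [smul_sub, smul_smul, ← pow_succ']
          rw [e5] at hz
          have e6 : (ℓ : ℤ) • (G y + n • y) = w + (ℓ : ℤ) ^ (k + 1) • z - (G w1 + n • w1) := by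
            rw [← hz]
            abel
          rw [e6]
          abel
        rw [e]
        exact W.sub_mem hw (W.add_mem (hGW w1 hw1) (W.smul_mem n hw1))
      obtain ⟨w2, hw2, z2, hz2⟩ := ih y n hfy ⟨t, ht⟩ ⟨_, hw3, z, by abel⟩
      refine ⟨w1 + (ℓ : ℤ) • w2, W.add_mem hw1 (W.smul_mem _ hw2), z2, ?_⟩
      rw [hy, hz2, smul_add, smul_smul, ← pow_succ']
      abel
  -- main
  by_contra hcon
  have huW : u ∉ W := hcon
  have hfu : f u ∈ W := hu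
  have hfGu : f (G u) ∈ W := by
    rw [hfG]
    exact hGW _ hfu
  have approx : ∀ k : ℕ, ∃ n : ℤ, ∃ w ∈ W, ∃ z, G u - n • u = w + ((ℓ : ℤ) ^ (k + 1)) • z := by
    intro k
    obtain ⟨n, hn, s, hs⟩ := hensel hl hl2 c C hcC hc k
    refine ⟨n, claim (k + 1) (G u - n • u) n ?_ hn ⟨G (G u) - C • u, hG2' u hfu, s • u, ?_⟩⟩
    · rw [map_sub, map_zsmul]
      exact W.sub_mem hfGu (W.smul_mem n hfu)
    · rw [map_sub, map_zsmul, smul_sub, smul_smul, smul_smul, ← hs, sub_smul, pow_two]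
      abel
  have hTF : Module.IsTorsionFree ℤ (Z ⧸ W) := by
    refine ⟨fun r hr => ?_⟩
    have hr0 : r ≠ 0 := hr.ne_zero
    intro a b hab
    obtain ⟨x, rfl⟩ := W.mkQ_surjective a
    obtain ⟨y, rfl⟩ := W.mkQ_surjective b
    dsimp only at hab
    rw [← map_smul, ← map_smul] at hab
    have h2 : r • x - r • y ∈ W := (Submodule.Quotient.eq W).mp hab
    rw [← smul_sub] at h2
    exact (Submodule.Quotient.eq W).mpr (hsat r _ hr0 h2)
  have hproj : ∀ v : Z, (∀ φ : Module.Dual ℤ (Z ⧸ W), φ (W.mkQ v) = 0) → v ∈ W := by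
    intro v hv
    have := (Module.forall_dual_apply_eq_zero_iff ℤ (W.mkQ v)).mp hv
    rwa [Submodule.mkQ_apply, Submodule.Quotient.mk_eq_zero] at this
  have hex : ∃ φ : Module.Dual ℤ (Z ⧸ W), φ (W.mkQ u) ≠ 0 := by
    by_contra hno
    exact huW (hproj u fun φ => by_contra fun h => hno ⟨φ, h⟩)
  obtain ⟨φ, hφ⟩ := hex
  have hW0 : ∀ w ∈ W, W.mkQ w = 0 := fun w hw => by
    rw [Submodule.mkQ_apply, Submodule.Quotient.mk_eq_zero]
    exact hw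
  have hdet : ∀ ψ : Module.Dual ℤ (Z ⧸ W),
      φ (W.mkQ u) * ψ (W.mkQ (G u)) = φ (W.mkQ (G u)) * ψ (W.mkQ u) := by
    intro ψ
    have hdvd : ∀ k : ℕ, (ℓ : ℤ) ^ (k + 1) ∣
        φ (W.mkQ u) * ψ (W.mkQ (G u)) - φ (W.mkQ (G u)) * ψ (W.mkQ u) := by
      intro k
      obtain ⟨n, w, hw, z, hz⟩ := approx k
      have e : G u = n • u + w + (ℓ : ℤ) ^ (k + 1) • z := by
        rw [add_assoc, ← hz]
        abel
      have e1 : ∀ χ : Module.Dual ℤ (Z ⧸ W), χ (W.mkQ (G u)) =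
          n * χ (W.mkQ u) + (ℓ : ℤ) ^ (k + 1) * χ (W.mkQ z) := by
        intro χ
        have e2 : W.mkQ (G u) = n • W.mkQ u + ((ℓ : ℤ) ^ (k + 1)) • W.mkQ z := by
          rw [e, map_add, map_add, hW0 w hw, add_zero, map_smul, map_smul]
        rw [e2, map_add, map_smul, map_smul, smul_eq_mul, smul_eq_mul]
      rw [e1 φ, e1 ψ]
      exact ⟨φ (W.mkQ u) * ψ (W.mkQ z) - φ (W.mkQ z) * ψ (W.mkQ u), by ring⟩
    by_contra hne
    have hne' : φ (W.mkQ u) * ψ (W.mkQ (G u)) - φ (W.mkQ (G u)) * ψ (W.mkQ u) ≠ 0 := sub_ne_zero.mpr hne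
    obtain ⟨k, hk⟩ := (Int.finiteMultiplicity_iff.mpr
      ⟨by rw [Int.natAbs_natCast]; exact hl.one_lt.ne', hne'⟩ : FiniteMultiplicity (ℓ : ℤ) _)
    exact hk (hdvd k)
  have hpar : φ (W.mkQ u) • G u - φ (W.mkQ (G u)) • u ∈ W := by
    apply hproj
    intro ψ
    rw [map_sub, map_sub, map_smul, map_smul, map_smul, map_smul, smul_eq_mul, smul_eq_mul, hdet ψ,
      sub_self]
  set a := φ (W.mkQ u) with ha
  set b := φ (W.mkQ (G u)) with hb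
  have hfinal : (a ^ 2 * C - b ^ 2) • u ∈ W := by
    have e : (a ^ 2 * C - b ^ 2) • u = a • (G (a • G u - b • u)) + b • (a • G u - b • u)
        - (a * a) • (G (G u) - C • u) := by
      rw [map_sub, map_zsmul, map_zsmul, smul_sub, smul_sub, smul_sub, sub_smul]
      simp only [smul_smul]
      rw [mul_comm b a, pow_two, pow_two]
      abel
    rw [e]
    exact W.sub_mem (W.add_mem (W.smul_mem a (hGW _ hpar)) (W.smul_mem b hpar))
      (W.smul_mem _ (hG2' u hfu))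
  have hab : a ^ 2 * C - b ^ 2 = 0 := by
    by_contra hne
    exact huW (hsat _ _ hne hfinal)
  apply hC
  have hab' : a ^ 2 * C = b ^ 2 := by linear_combination hab
  have hdvd : a ^ 2 ∣ b ^ 2 := ⟨C, hab'.symm⟩
  obtain ⟨t, ht⟩ := (Int.pow_dvd_pow_iff two_ne_zero).mp hdvd
  refine ⟨t, ?_⟩
  have ha2 : a ^ 2 ≠ 0 := pow_ne_zero 2 hφ
  apply mul_left_cancel₀ ha2
  rw [hab', ht]
  ring

end ST95
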