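import Pool.Agent.LibST95.A3
import Pool.Agent.LibST95.B1
import Pool.Agent.LibKS44.G2

/-!
# LibST95.B2 : cocycles with integral values
-/

set_option autoImplicit false

open Matrix
open scoped MatrixGroups

namespace ST95

open KS44

variable {ι : Type} [Fintype ι] [DecidableEq ι] {ℓ p : ℕ} {ρ : Mat → Matrix ι ι ℤ}

/-- compatibility with a homomorphism of the coefficients -/
def Coef {A B : Type} [AddCommGroup A] [AddCommGroup B] (hρ : IsRep ℓ ρ) (φ : A →+ B) (P : HD (jG hρ A))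
    (Q : HD (jG hρ B)) : Prop :=
  ∀ u : SL(2, ℤ) → ι → A, Q.op (fun g i => φ (u g i)) = fun g i => φ (P.op u g i)

section

variable {A B : Type} [AddCommGroup A] [AddCommGroup B] {hρ : IsRep ℓ ρ} {φ : A →+ B}
  {P P' : HD (jG hρ A)} {Q Q' : HD (jG hρ B)}

theorem coef_one : Coef hρ φ (hOne (jG hρ A)) (hOne (jG hρ B)) := by
  intro u
  rw [hOne_op, hOne_op]

theorem coef_add (h1 : Coef hρ φ P Q) (h2 : Coef hρ φ P' Q') : Coef hρ φ (hAdd P P') (hAdd Q Q') := by
  intro u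
  rw [hAdd_op, hAdd_op, h1 u, h2 u]
  funext g i
  exact (map_add φ _ _).symm

theorem coef_smul (n : ℤ) (h1 : Coef hρ φ P Q) : Coef hρ φ (hSmul n P) (hSmul n Q) := by
  intro u
  rw [hSmul_op, hSmul_op, h1 u]
  funext g i
  exact (map_zsmul φ _ _).symm

theorem coef_comp (h1 : Coef hρ φ P Q) (h2 : Coef hρ φ P' Q') : Coef hρ φ (hComp P P') (hComp Q Q') := by
  intro u
  rw [hComp_op, hComp_op, h2 u, h1]

theorem coef_pow (h1 : Coef hρ φ P Q) (n : ℕ) : Coef hρ φ (hPow P n) (hPow Q n) := by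
  induction n with
  | zero => exact coef_one
  | succ n ih => exact coef_comp h1 ih

theorem coef_Q (hρ : IsRep ℓ ρ) (cop : IsCoprime (p : ℤ) (ℓ : ℤ)) {I : Type} [Fintype I] {α : I → Mat}
    (hα : IsReps p α) (φ : A →+ B) (n : ℤ) (N d : ℕ) (c : ℤ) :
    Coef hρ φ (hQ (TG hρ cop hα A) (SG hρ cop A) n N d c) (hQ (TG hρ cop hα B) (SG hρ cop B) n N d c) := by
  have hT : Coef hρ φ (TG hρ cop hα A) (TG hρ cop hα B) := fun u => g0_opT hρ cop hα φ u
  have hS : Coef hρ φ (SG hρ cop A) (SG hρ cop B) := fun u => g0_opS hρ cop φ u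
  have hF := coef_add (coef_comp hT hT) (coef_smul (-n) hS)
  exact coef_add (coef_pow hF N) (coef_comp (coef_add coef_one (coef_smul (-1) (coef_pow hF N)))
    (coef_add (coef_pow hT d) (coef_smul c coef_one)))

end

/-- `T` and `S` commute -/
theorem TS_comm (hρ : IsRep ℓ ρ) (cop : IsCoprime (p : ℤ) (ℓ : ℤ)) {I : Type} [Fintype I] {α : I → Mat}
    (hα : IsReps p α) (A : Type) [AddCommGroup A] (u : SL(2, ℤ) → ι → A) :
    (TG hρ cop hα A).op ((SG hρ cop A).op u) = (SG hρ cop A).op ((TG hρ cop hα A).op u) := by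
  funext γ
  have h1 : IsCoprime ((p : ℤ) • (1 : Mat)).det (ℓ : ℤ) := by
    rw [Matrix.det_smul, Matrix.det_one, mul_one]
    exact cop.pow_left
  have h2 : ∀ i, IsCoprime (α i).adjugate.det (ℓ : ℤ) := by
    intro i
    rw [Matrix.det_adjugate, Fintype.card_fin, hα.1 i]
    simpa using cop
  have hL : (TG hρ cop hα A).op ((SG hρ cop A).op u) γ =
      ∑ i, act ρ A (α i).adjugate (act ρ A ((p : ℤ) • 1) (u (comp α i γ))) := by
    refine Finset.sum_congr rfl fun i _ => ?_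
    change act ρ A (α i).adjugate (∑ _k : Unit, act ρ A ((p : ℤ) • 1) (u (comp α i γ))) = _
    rw [Fintype.sum_unique]
  have hR : (SG hρ cop A).op ((TG hρ cop hα A).op u) γ =
      act ρ A ((p : ℤ) • 1) (∑ i, act ρ A (α i).adjugate (u (comp α i γ))) := by
    change (∑ _k : Unit, act ρ A ((p : ℤ) • 1) (∑ i, act ρ A (α i).adjugate (u (comp α i γ)))) = _
    rw [Fintype.sum_unique]
  rw [hL, hR, map_sum]
  refine Finset.sum_congr rfl fun i _ => ?_
  rw [← Module.End.mul_apply, ← Module.End.mul_apply, ← act_mul hρ A (h2 i) h1,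
    ← act_mul hρ A h1 (h2 i), Matrix.smul_mul, Matrix.mul_smul, one_mul, mul_one]

/-- `S ^ d` -/
theorem S_pow (hρ : IsRep ℓ ρ) (cop : IsCoprime (p : ℤ) (ℓ : ℤ)) (A : Type) [AddCommGroup A] (d : ℕ) (c : ℤ)
    (hS : ρ ((p : ℤ) • (1 : Mat)) ^ d = c • (1 : Matrix ι ι ℤ)) (u : SL(2, ℤ) → ι → A) :
    (hPow (SG hρ cop A) d).op u = fun γ => c • u γ := by
  have h1 : IsCoprime ((p : ℤ) • (1 : Mat)).det (ℓ : ℤ) := by
    rw [Matrix.det_smul, Matrix.det_one, mul_one]
    exact cop.pow_left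
  have key : ∀ (n : ℕ) (γ : SL(2, ℤ)) (i : ι), (hPow (SG hρ cop A) n).op u γ i =
      ∑ k, (ρ ((p : ℤ) • (1 : Mat)) ^ n) i k • u γ k := by
    intro n
    induction n with
    | zero =>
      intro γ i
      change (hOne (jG hρ A)).op u γ i = _
      rw [hOne_op, pow_zero]
      simp [Matrix.one_apply]
    | succ n ih =>
      intro γ i
      change (hComp (SG hρ cop A) (hPow (SG hρ cop A) n)).op u γ i = _
      rw [hComp_op]
      change (∑ _k : Unit, act ρ A ((p : ℤ) • 1) ((hPow (SG hρ cop A) n).op u γ)) i = _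
      rw [Fintype.sum_unique]
      change ∑ k, ρ ((p : ℤ) • (1 : Mat)) i k • (hPow (SG hρ cop A) n).op u γ k = _
      simp only [ih, pow_succ', Matrix.mul_apply, Finset.sum_smul, Finset.smul_sum, smul_smul]
      rw [Finset.sum_comm]
  funext γ i
  rw [key d γ i, hS]
  simp [Matrix.one_apply]

theorem not_square {p d e : ℕ} (hp : p.Prime) (hodd : Odd d) : ¬ IsSquare ((4 * (p : ℤ)) ^ d * (p : ℤ) ^ (2 * e)) := by
  rintro ⟨t, ht⟩
  obtain ⟨m, hm⟩ := hodd
  set s : ℤ := 2 ^ d * (p : ℤ) ^ (m + e) with hs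
  have hs0 : s ≠ 0 := by
    have hp0 : (p : ℤ) ≠ 0 := by exact_mod_cast hp.ne_zero
    exact mul_ne_zero (pow_ne_zero _ two_ne_zero) (pow_ne_zero _ hp0)
  have h1 : (p : ℤ) * s ^ 2 = t ^ 2 := by
    rw [pow_two t, ← ht, hs, mul_pow 4 (p : ℤ), mul_pow, ← pow_mul, ← pow_mul]
    have h4 : (4 : ℤ) ^ d = 2 ^ (d * 2) := by
      rw [mul_comm d 2, pow_mul]
      norm_num
    rw [h4]
    have e2 : (p : ℤ) ^ d * (p : ℤ) ^ (2 * e) = (p : ℤ) * (p : ℤ) ^ ((m + e) * 2) := by
      rw [← pow_add, ← pow_succ']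
      congr 1
      omega
    calc (p : ℤ) * (2 ^ (d * 2) * (p : ℤ) ^ ((m + e) * 2)) = 2 ^ (d * 2) * ((p : ℤ) * (p : ℤ) ^ ((m + e) * 2)) := by ring
      _ = 2 ^ (d * 2) * ((p : ℤ) ^ d * (p : ℤ) ^ (2 * e)) := by rw [e2]
      _ = _ := by ring
  have hdvd : s ^ 2 ∣ t ^ 2 := ⟨p, by linear_combination -h1⟩
  obtain ⟨r, hr⟩ := (Int.pow_dvd_pow_iff two_ne_zero).mp hdvd
  have h2 : (p : ℤ) = r * r := by
    apply mul_left_cancel₀ (pow_ne_zero 2 hs0)
    rw [mul_comm, h1, hr]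
    ring
  have h3 : Prime (p : ℤ) := Nat.prime_iff_prime_int.1 hp
  exact h3.not_isSquare ⟨r, h2⟩

theorem even_int {τ : SL(2, ℤ)} (h : Setup ℓ p τ) (hl : ℓ = 3 ∨ ℓ = 5 ∨ ℓ = 7) (d e : ℕ)
    (hd : (ℓ : ℤ) ∣ (p : ℤ) ^ d - 1) (he : (ℓ : ℤ) ∣ (p : ℤ) ^ (2 * e) - 1) (hodd : Odd d) (hρ : IsRep ℓ ρ)
    (hS : ρ ((p : ℤ) • (1 : Mat)) ^ d = ((p : ℤ) ^ (2 * e)) • (1 : Matrix ι ι ℤ))
    (u : SL(2, ℤ) → ι → ℤ) (hu : Coc (jG hρ ℤ) (ι → ℤ) u)
    (hdu : ∃ N : ℤ, N ≠ 0 ∧ Cob (jG hρ ℤ) (ι → ℤ) (fun g => N • dsc (TG hρ h.cop (alpha_reps τ p h.hp) ℤ)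
      (SG hρ h.cop ℤ) (4 * p) u g)) :
    ∃ N : ℤ, N ≠ 0 ∧ Cob (jG hρ ℤ) (ι → ℤ) (fun g => N • u g) := by
  set hα := alpha_reps τ p h.hp with hαdef
  let TT := TG hρ h.cop hα ℤ
  let SS := SG hρ h.cop ℤ
  let Z : Submodule ℤ (SL(2, ℤ) → ι → ℤ) :=
    { carrier := {v | Coc (jG hρ ℤ) (ι → ℤ) v}
      add_mem' := by
        intro a b ha hb g h
        change a (g * h) + b (g * h) = (a g + b g) + jG hρ ℤ g • (a h + b h)
        rw [ha g h, hb g h, smul_add]
        abel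
      zero_mem' := by
        intro g h
        change (0 : ι → ℤ) = 0 + jG hρ ℤ g • (0 : ι → ℤ)
        rw [smul_zero, add_zero]
      smul_mem' := by
        intro c a ha g h
        change c • a (g * h) = c • a g + jG hρ ℤ g • (c • a h)
        rw [ha g h, smul_add, smul_comm (jG hρ ℤ g) c (a h)] }
  have hfin : Module.Finite ℤ Z := by
    let f : Z →ₗ[ℤ] (ι → ℤ) × (ι → ℤ) :=
      { toFun := fun z => (z.1 ModularGroup.S, z.1 ModularGroup.T)
        map_add' := fun _ _ => rfl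
        map_smul' := fun _ _ => rfl }
    refine Module.Finite.of_injective f ?_
    intro a b hab
    have h1 : a.1 ModularGroup.S = b.1 ModularGroup.S := congrArg Prod.fst hab
    have h2 : a.1 ModularGroup.T = b.1 ModularGroup.T := congrArg Prod.snd hab
    have h3 : Coc (jG hρ ℤ) (ι → ℤ) (a - b : Z).1 := (a - b : Z).2
    have h4 : (a - b : Z).1 = 0 := by
      apply coc_ext h3
      · change a.1 ModularGroup.S - b.1 ModularGroup.S = 0
        rw [h1, sub_self]
      · change a.1 ModularGroup.T - b.1 ModularGroup.T = 0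
        rw [h2, sub_self]
    apply Subtype.ext
    have h5 : a.1 - b.1 = 0 := h4
    exact sub_eq_zero.mp h5
  let B : AddSubgroup Z :=
    { carrier := {v | Cob (jG hρ ℤ) (ι → ℤ) v.1}
      add_mem' := by
        rintro a b ⟨m, hm⟩ ⟨m', hm'⟩
        refine ⟨m + m', fun g => ?_⟩
        change a.1 g + b.1 g = jG hρ ℤ g • (m + m') - (m + m')
        rw [hm g, hm' g, smul_add]
        abel
      zero_mem' := ⟨0, fun g => by
        change (0 : ι → ℤ) = jG hρ ℤ g • (0 : ι → ℤ) - 0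
        rw [smul_zero, sub_zero]⟩
      neg_mem' := by
        rintro a ⟨m, hm⟩
        refine ⟨-m, fun g => ?_⟩
        change -(a.1 g) = jG hρ ℤ g • (-m) - -m
        rw [hm g, smul_neg]
        abel }
  let op : HD (jG hρ ℤ) → (Z →+ Z) := fun P => AddMonoidHom.ofMapSub
    (fun z => (⟨P.op z.1, op_coc P z.1 z.2⟩ : Z)) (by
      intro x y
      apply Subtype.ext
      exact op_sub P x.1 y.1)
  have hop : ∀ (P : HD (jG hρ ℤ)) (z : Z), (op P z).1 = P.op z.1 := fun _ _ => rfl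
  have hopB : ∀ (P : HD (jG hρ ℤ)), ∀ b ∈ B, op P b ∈ B := by
    rintro P b ⟨m, hm⟩
    refine ⟨P.act0 m, fun g => ?_⟩
    have hb : b.1 = fun g => jG hρ ℤ g • m - m := funext hm
    rw [hop, hb, op_cob]
  have hopc : ∀ (P P' : HD (jG hρ ℤ)) (z : Z), op (hComp P P') z = op P (op P' z) := by
    intro P P' z
    apply Subtype.ext
    rw [hop, hop, hop, hComp_op]
  have hop1 : ∀ z : Z, op (hOne _) z = z := by
    intro z
    apply Subtype.ext
    rw [hop, hOne_op]
  have hopa : ∀ (P P' : HD (jG hρ ℤ)) (z : Z), op (hAdd P P') z = op P z + op P' z := by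
    intro P P' z
    apply Subtype.ext
    rw [hop, hAdd_op]
    rfl
  have hops : ∀ (n : ℤ) (P : HD (jG hρ ℤ)) (z : Z), op (hSmul n P) z = n • op P z := by
    intro n P z
    apply Subtype.ext
    rw [hop, hSmul_op]
    rfl
  have hTS : ∀ z : Z, op TT (op SS z) = op SS (op TT z) := by
    intro z
    apply Subtype.ext
    exact TS_comm hρ h.cop hα ℤ z.1
  have hF : ∀ z : Z, op (hF TT SS (4 * p)) z = op TT (op TT z) + (-(4 * (p : ℤ))) • op SS z := by
    intro z
    unfold ST95.hF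
    rw [hopa, hopc, hops]
  have hFT : ∀ z : Z, op (ST95.hF TT SS (4 * p)) (op TT z) = op TT (op (ST95.hF TT SS (4 * p)) z) := by
    intro z
    rw [hF, hF, map_add, map_zsmul, hTS]
  have hFS : ∀ z : Z, op (ST95.hF TT SS (4 * p)) (op SS z) = op SS (op (ST95.hF TT SS (4 * p)) z) := by
    intro z
    rw [hF, hF, map_add, map_zsmul, hTS, hTS]
  have hFTn : ∀ (n : ℕ) (z : Z), op (ST95.hF TT SS (4 * p)) (op (hPow TT n) z) =
      op (hPow TT n) (op (ST95.hF TT SS (4 * p)) z) := by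
    intro n
    induction n with
    | zero => intro z; change _ = op (hOne _) _; rw [hop1]; change op _ (op (hOne _) z) = _; rw [hop1]
    | succ n ih =>
      intro z
      change op _ (op (hComp TT (hPow TT n)) z) = op (hComp TT (hPow TT n)) _
      rw [hopc, hopc, hFT, ih]
  let W : Submodule ℤ Z :=
    { carrier := {u | ∃ N : ℤ, N ≠ 0 ∧ N • u ∈ B}
      zero_mem' := ⟨1, one_ne_zero, by rw [smul_zero]; exact B.zero_mem⟩
      add_mem' := by
        rintro x y ⟨a, ha, hx⟩ ⟨b, hb, hy⟩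
        refine ⟨a * b, mul_ne_zero ha hb, ?_⟩
        have e : (a * b) • (x + y) = b • (a • x) + a • (b • y) := by
          rw [smul_add, smul_smul, smul_smul, mul_comm b a]
        rw [e]
        exact B.add_mem (B.zsmul_mem hx b) (B.zsmul_mem hy a)
      smul_mem' := by
        rintro c x ⟨a, ha, hx⟩
        refine ⟨a, ha, ?_⟩
        rw [smul_comm]
        exact B.zsmul_mem hx c }
  have hopW : ∀ (P : HD (jG hρ ℤ)), ∀ x ∈ W, op P x ∈ W := by
    rintro P x ⟨N, hN, hx⟩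
    exact ⟨N, hN, by rw [← map_zsmul]; exact hopB P _ hx⟩
  have hl2 : ℓ ≠ 2 := by rcases hl with h | h | h <;> omega
  have hlp : Prime (ℓ : ℤ) := Nat.prime_iff_prime_int.1 h.hl
  have hlow : ∀ (k : ℕ) (x : Z), op (ST95.hF TT SS (4 * p)) x ∈ W →
      op (hPow TT k) (op (hPow TT k) x) - ((4 * (p : ℤ)) ^ k) • op (hPow SS k) x ∈ W := by
    intro k
    induction k with
    | zero =>
      intro x _
      change op (hOne _) (op (hOne _) x) - _ • op (hOne _) x ∈ W
      rw [hop1, hop1, pow_zero, one_smul, sub_self]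
      exact W.zero_mem
    | succ k ih =>
      intro x hx
      have hTk : ∀ (n : ℕ) (z : Z), op (hPow TT n) (op TT z) = op TT (op (hPow TT n) z) := by
        intro n
        induction n with
        | zero => intro z; change op (hOne _) _ = op TT (op (hOne _) z); rw [hop1, hop1]
        | succ n ih =>
          intro z
          change op (hComp TT (hPow TT n)) _ = op TT (op (hComp TT (hPow TT n)) z)
          rw [hopc, hopc, ih]
      have hSk : ∀ (n : ℕ) (z : Z), op (hPow SS n) (op SS z) = op SS (op (hPow SS n) z) := by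
        intro n
        induction n with
        | zero => intro z; change op (hOne _) _ = op SS (op (hOne _) z); rw [hop1, hop1]
        | succ n ih =>
          intro z
          change op (hComp SS (hPow SS n)) _ = op SS (op (hComp SS (hPow SS n)) z)
          rw [hopc, hopc, ih]
      have hSx : op (ST95.hF TT SS (4 * p)) (op SS x) ∈ W := by
        rw [hFS]
        exact hopW _ _ hx
      have h1 := ih (op SS x) hSx
      have e1 : op TT (op TT x) = op (ST95.hF TT SS (4 * p)) x + (4 * (p : ℤ)) • op SS x := by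
        rw [hF, neg_smul, neg_add_cancel_right]
      have e2 : op (hPow TT (k + 1)) (op (hPow TT (k + 1)) x) =
          op (hPow TT k) (op (hPow TT k) (op TT (op TT x))) := by
        change op (hComp TT (hPow TT k)) (op (hComp TT (hPow TT k)) x) = _
        rw [hopc, hopc]
        simp only [hTk]
      have e3 : op (hPow SS (k + 1)) x = op (hPow SS k) (op SS x) := by
        change op (hComp SS (hPow SS k)) x = _
        rw [hopc, hSk]
      have e4 : op (hPow TT k) (op (hPow TT k) ((4 * (p : ℤ)) • op SS x)) =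
          (4 * (p : ℤ)) • op (hPow TT k) (op (hPow TT k) (op SS x)) := by
        rw [map_zsmul (op (hPow TT k)) (4 * (p : ℤ)) (op SS x),
          map_zsmul (op (hPow TT k)) (4 * (p : ℤ)) (op (hPow TT k) (op SS x))]
      rw [e2, e3, e1, map_add, map_add, e4, pow_succ', mul_smul (4 * (p : ℤ)) ((4 * (p : ℤ)) ^ k),
        add_sub_assoc, ← smul_sub]
      exact W.add_mem (hopW _ _ (hopW _ _ hx)) (W.smul_mem _ h1)
  obtain ⟨N, hN, m, hm⟩ := hdu
  have hdu' : ∃ N : ℤ, N ≠ 0 ∧ N • op (ST95.hF TT SS (4 * p)) ⟨u, hu⟩ ∈ B := by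
    refine ⟨N, hN, m, fun g => ?_⟩
    rw [← hm g]
    change N • (ST95.hF TT SS (4 * p)).op u g = _
    rw [hF_op]
  obtain ⟨N', hN', m', hm'⟩ := alg_level2 h.hl hl2 Z B (op (ST95.hF TT SS (4 * p))) (op (hPow TT d))
    (op (hQ TT SS (4 * p) (ℓ - 1) d (2 ^ d))) (hopB _) (hopB _) (hopB _) (hFTn d) (2 ^ d)
    ((4 * (p : ℤ)) ^ d * (p : ℤ) ^ (2 * e)) (not_square h.hp hodd) (by
      obtain ⟨a, ha⟩ := hd
      obtain ⟨b, hb⟩ := he
      have ha' : (p : ℤ) ^ d = 1 + ℓ * a := by linear_combination ha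
      have hb' : (p : ℤ) ^ (2 * e) = 1 + ℓ * b := by linear_combination hb
      rw [mul_pow, ha', hb']
      have h4 : (4 : ℤ) ^ d = (2 ^ d) ^ 2 := by
        rw [← pow_mul, mul_comm d 2, pow_mul]
        norm_num
      rw [h4]
      exact ⟨(2 ^ d) ^ 2 * (a + b + ℓ * a * b), by ring⟩) (by
      intro hdv
      have h2 := hlp.dvd_of_dvd_pow hdv
      have h' : ℓ ∣ 2 := by exact_mod_cast h2
      exact hl2 ((Nat.prime_dvd_prime_iff_eq h.hl Nat.prime_two).1 h')) (by
      intro x hx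
      change op (hQ TT SS (4 * p) (ℓ - 1) d (2 ^ d)) x - (op (hPow TT d) x + (2 ^ d : ℤ) • x) ∈ W
      have hx' : op (ST95.hF TT SS (4 * p)) x ∈ W := hx
      obtain ⟨k, hk⟩ : ∃ k, ℓ - 1 = k + 1 := ⟨ℓ - 2, by have := h.hl.two_le; omega⟩
      have hpowF : ∀ (n : ℕ) (z : Z), op (hPow (ST95.hF TT SS (4 * p)) n) (op (ST95.hF TT SS (4 * p)) z) =
          op (ST95.hF TT SS (4 * p)) (op (hPow (ST95.hF TT SS (4 * p)) n) z) := by
        intro n
        induction n with
        | zero => intro z; change op (hOne _) _ = op _ (op (hOne _) z); rw [hop1, hop1]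
        | succ n ih =>
          intro z
          change op (hComp _ (hPow _ n)) _ = op _ (op (hComp _ (hPow _ n)) z)
          rw [hopc, hopc, ih]
      have hpW : ∀ z : Z, op (ST95.hF TT SS (4 * p)) z ∈ W →
          op (hPow (ST95.hF TT SS (4 * p)) (ℓ - 1)) z ∈ W := by
        intro z hz
        rw [hk]
        change op (hComp _ (hPow _ k)) z ∈ W
        rw [hopc, ← hpowF]
        exact hopW _ _ hz
      have hGx : op (ST95.hF TT SS (4 * p)) (op (hPow TT d) x + (2 ^ d : ℤ) • x) ∈ W := by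
        rw [map_add, map_zsmul, hFTn]
        exact W.add_mem (hopW _ _ hx') (W.smul_mem _ hx')
      have e1 : op (hG TT d (2 ^ d)) x = op (hPow TT d) x + (2 ^ d : ℤ) • x := by
        unfold hG
        rw [hopa, hops, hop1]
      have e2 : op (hQ TT SS (4 * p) (ℓ - 1) d (2 ^ d)) x = op (hPow (ST95.hF TT SS (4 * p)) (ℓ - 1)) x +
          (op (hG TT d (2 ^ d)) x + (-1 : ℤ) • op (hPow (ST95.hF TT SS (4 * p)) (ℓ - 1)) (op (hG TT d (2 ^ d)) x)) := by
        unfold hQ
        rw [hopa, hopc, hopa, hops, hop1]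
      rw [e2, e1, neg_smul, one_smul]
      have e3 : op (hPow (ST95.hF TT SS (4 * p)) (ℓ - 1)) x + (op (hPow TT d) x + (2 ^ d : ℤ) • x +
          -op (hPow (ST95.hF TT SS (4 * p)) (ℓ - 1)) (op (hPow TT d) x + (2 ^ d : ℤ) • x)) -
          (op (hPow TT d) x + (2 ^ d : ℤ) • x) = op (hPow (ST95.hF TT SS (4 * p)) (ℓ - 1)) x -
          op (hPow (ST95.hF TT SS (4 * p)) (ℓ - 1)) (op (hPow TT d) x + (2 ^ d : ℤ) • x) := by abel
      rw [e3]
      exact W.sub_mem (hpW _ hx') (hpW _ hGx)) (by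
      intro x hx
      change op (hPow TT d) (op (hPow TT d) x) - ((4 * (p : ℤ)) ^ d * (p : ℤ) ^ (2 * e)) • x ∈ W
      have h1 := hlow d x hx
      have e1 : op (hPow SS d) x = ((p : ℤ) ^ (2 * e)) • x := by
        apply Subtype.ext
        rw [hop, S_pow hρ h.cop ℤ d _ hS]
        rfl
      rw [e1, smul_smul] at h1
      exact h1) (by
      rintro w ⟨b, ⟨m, hm⟩, z, hz⟩
      let φ : ℤ →+ ZMod ℓ := Int.castAddHom (ZMod ℓ)
      have hw : Coc (jG hρ (ZMod ℓ)) (ι → ZMod ℓ) (fun g i => φ (w.1 g i)) := coc_map hρ φ w.2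
      have h2 := coef_Q hρ h.cop hα φ (4 * p) (ℓ - 1) d (2 ^ d) w.1
      have hc : Cob (jG hρ (ZMod ℓ)) (ι → ZMod ℓ)
          ((hQ (TG hρ h.cop hα (ZMod ℓ)) (SG hρ h.cop (ZMod ℓ)) (4 * p) (ℓ - 1) d (2 ^ d)).op
            (fun g i => φ (w.1 g i))) := by
        refine ⟨fun i => φ (m i), fun g => ?_⟩
        rw [h2]
        funext i
        have h3 : (hQ TT SS (4 * p) (ℓ - 1) d (2 ^ d)).op w.1 g i = b.1 g i + ℓ • z.1 g i := by
          have h4 : (op (hQ TT SS (4 * p) (ℓ - 1) d (2 ^ d)) w).1 g i = (b + ℓ • z : Z).1 g i := by rw [hz]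
          exact h4
        have h5 : b.1 g i = act ρ ℤ (g : Mat) m i - m i := congrFun (hm g) i
        have h6 : act ρ (ZMod ℓ) (g : Mat) (fun i => φ (m i)) i = φ (act ρ ℤ (g : Mat) m i) :=
          congrFun (act_map (ρ := ρ) φ (g : Mat) m) i
        change φ ((hQ TT SS (4 * p) (ℓ - 1) d (2 ^ d)).op w.1 g i)
          = act ρ (ZMod ℓ) (g : Mat) (fun i => φ (m i)) i - φ (m i)
        rw [h3, map_add, g2_cast_nsmul, add_zero, h5, h6, map_sub]
      obtain ⟨mb, hmb⟩ := modP h hl d hd hρ _ hw hc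
      have hsurj : ∀ i, ∃ a : ℤ, φ a = mb i := fun i => ZMod.intCast_surjective (mb i)
      choose m2 hm2 using hsurj
      have hdvd : ∀ g i, ∃ a : ℤ, w.1 g i - (act ρ ℤ (g : Mat) m2 i - m2 i) = ℓ * a := by
        intro g i
        have h7 : φ (w.1 g i) = act ρ (ZMod ℓ) (g : Mat) mb i - mb i := congrFun (hmb g) i
        have h8 : mb = fun i => φ (m2 i) := funext fun i => (hm2 i).symm
        have h9 : act ρ (ZMod ℓ) (g : Mat) (fun i => φ (m2 i)) i = φ (act ρ ℤ (g : Mat) m2 i) :=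
          congrFun (act_map (ρ := ρ) φ (g : Mat) m2) i
        have h10 : φ (w.1 g i - (act ρ ℤ (g : Mat) m2 i - m2 i)) = 0 := by
          rw [map_sub, h7, h8, h9, map_sub, sub_self]
        have h11 : ((w.1 g i - (act ρ ℤ (g : Mat) m2 i - m2 i) : ℤ) : ZMod ℓ) = 0 := h10
        exact (ZMod.intCast_zmod_eq_zero_iff_dvd _ ℓ).mp h11
      choose v hv using hdvd
      have hl0 : (ℓ : ℤ) ≠ 0 := by exact_mod_cast h.hl.ne_zero
      have hcob : Coc (jG hρ ℤ) (ι → ℤ) (fun g => jG hρ ℤ g • m2 - m2) := cob_coc m2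
      have hvl : ∀ g, (ℓ : ℤ) • v g = w.1 g - (jG hρ ℤ g • m2 - m2) := by
        intro g
        funext i
        exact (hv g i).symm
      have hvc : Coc (jG hρ ℤ) (ι → ℤ) v := by
        intro g k
        have h12 : (ℓ : ℤ) • v (g * k) = (ℓ : ℤ) • (v g + jG hρ ℤ g • v k) := by
          have h14 : jG hρ ℤ (g * k) • m2 - m2
              = (jG hρ ℤ g • m2 - m2) + jG hρ ℤ g • (jG hρ ℤ k • m2 - m2) := hcob g k
          rw [smul_add, smul_comm (ℓ : ℤ) (jG hρ ℤ g) (v k), hvl, hvl, hvl, w.2 g k, h14,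
            smul_sub (jG hρ ℤ g) (w.1 k)]
          abel
        exact smul_right_injective _ hl0 h12
      refine ⟨⟨fun g => jG hρ ℤ g • m2 - m2, hcob⟩, ⟨m2, fun g => rfl⟩, ⟨v, hvc⟩, ?_⟩
      apply Subtype.ext
      funext g
      change w.1 g = (jG hρ ℤ g • m2 - m2) + ℓ • v g
      have h13 : ℓ • v g = (ℓ : ℤ) • v g := (natCast_zsmul (v g) ℓ).symm
      rw [h13, hvl g]
      abel) ⟨u, hu⟩ hdu'
  exact ⟨N', hN', m', hm'⟩

end ST95
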